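import Mathlib
import Pool.Agent.Helper11.Unram

/-!
The symbol `{a, b}` is integral if `(a - 1/a) (b - 1/b)` is integral.
-/

namespace Pool.Agent.Helper12.RQ

open Pool.Agent.Helper11

variable {F : Type*} [Field F]

/-- the valuation of `a - 1/a` for a non-unit -/
lemma one_lt_val (O : ValuationSubring F) {a : F} (ha0 : a ≠ 0) (ha : O.valuation a ≠ 1) :
    1 < O.valuation (a - a⁻¹) := by
  have hva : O.valuation a ≠ 0 := (Valuation.ne_zero_iff _).2 ha0
  rcases lt_or_gt_of_ne ha with h | h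
  · have h1 : 1 < O.valuation a⁻¹ := by
      rw [map_inv₀]
      exact (one_lt_inv₀ (zero_lt_iff.2 hva)).2 h
    have h2 : O.valuation (a - a⁻¹) = O.valuation a⁻¹ :=
      Valuation.map_sub_eq_of_lt_right _ (h.trans h1)
    rw [h2]
    exact h1
  · have h1 : O.valuation a⁻¹ < 1 := by
      rw [map_inv₀]
      exact inv_lt_one_of_one_lt₀ h
    have h2 : O.valuation (a - a⁻¹) = O.valuation a :=
      Valuation.map_sub_eq_of_lt_left _ (h1.trans h)
    rw [h2]
    exact h

lemma mem_unr_aux (O : ValuationSubring F) [IsDiscreteValuationRing O] {a b : Fˣ} {w : F}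
    (h : ((a : F) - (a : F)⁻¹) * ((b : F) - (b : F)⁻¹) = w) (hw : w ∈ O)
    (ha : O.valuation (a : F) ≠ 1) : sym a b ∈ unr O := by
  have h1 := one_lt_val O a.ne_zero ha
  have h2 : O.valuation ((b : F) - (b : F)⁻¹) < 1 := by
    have h3 : O.valuation ((a : F) - (a : F)⁻¹) * O.valuation ((b : F) - (b : F)⁻¹) ≤ 1 := by
      rw [← map_mul, h]
      exact (O.valuation_le_one_iff _).2 hw
    by_contra hcon
    push Not at hcon
    exact absurd h3 (not_le.2 (lt_of_lt_of_le h1 (le_mul_of_one_le_right' hcon)))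
  have h3 : O.valuation (b : F) = 1 := by
    by_contra hb
    exact absurd (one_lt_val O b.ne_zero hb) (not_lt.2 h2.le)
  have h4 : O.valuation (((b ^ 2 : Fˣ) : F) - 1) < 1 := by
    have e : ((b ^ 2 : Fˣ) : F) - 1 = (b : F) * ((b : F) - (b : F)⁻¹) := by
      push_cast
      have := b.ne_zero
      field_simp
    rw [e, map_mul, h3, one_mul]
    exact h2
  have h5 := sym_mem_of_sub_one_right O (z := a) h4
  rw [sym_pow_right] at h5
  have h6 := (unr O).smul_mem ((2 : ℕ) : ℚ)⁻¹ h5
  rwa [smul_smul, inv_mul_cancel₀ (by norm_num), one_smul] at h6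

/-- If `(a - 1/a) (b - 1/b)` lies in the discrete valuation ring `O` then `{a, b}` is a
combination of symbols of units of `O`. -/
theorem mem_unr (O : ValuationSubring F) [IsDiscreteValuationRing O] {a b : Fˣ} {w : F}
    (h : ((a : F) - (a : F)⁻¹) * ((b : F) - (b : F)⁻¹) = w) (hw : w ∈ O) : sym a b ∈ unr O := by
  by_cases ha : O.valuation (a : F) = 1
  · by_cases hb : O.valuation (b : F) = 1
    · exact sym_mem_unr O ha hb
    · rw [sym_antisymm]
      refine (unr O).neg_mem (mem_unr_aux O (w := w) ?_ hw hb)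
      rw [← h]
      ring
  · exact mem_unr_aux O h hw ha

/-- If `(a - 1/a) (b - 1/b)` is integral over `ℤ` then `{a, b}` is integral. -/
theorem mem_integralPart_of {a b : Fˣ} {w : F}
    (h : ((a : F) - (a : F)⁻¹) * ((b : F) - (b : F)⁻¹) = w) (hw : IsIntegral ℤ w) :
    sym a b ∈ integralPart F := by
  rw [mem_integralPart]
  intro O hO
  refine mem_unr O h ?_
  have h1 : IsIntegral O w := hw.tower_top
  obtain ⟨z, hz⟩ := IsIntegrallyClosed.isIntegral_iff.1 h1
  rw [← hz]
  exact z.2

end Pool.Agent.Helper12.RQ
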