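import Mathlib
import Pool.Agent.Helper11.Loop

/-!
Ring homomorphisms from the function field `F(a, b)`, `a - 1/a + k (b - 1/b) = 0`, to the ring of
loops.
-/

namespace Pool.Agent.Helper12.RQ

open Pool.Agent.Helper11 Polynomial

section irr

variable {F : Type*} [Field F]

/-- the polynomial `X Y² + k (X² - 1) Y - X` -/
noncomputable def crv (k : F) : F[X][X] :=
  C X * X ^ 2 + C (C k * (X ^ 2 - 1)) * X - C X

lemma crv_natDegree (k : F) : (crv k).natDegree = 2 := by
  unfold crv
  have h : (X : F[X]) ≠ 0 := X_ne_zero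
  compute_degree!

lemma crv_coeff_zero (k : F) : (crv k).coeff 0 = -X := by
  unfold crv
  generalize (C k * (X ^ 2 - 1) : F[X]) = b
  simp

lemma crv_coeff_one (k : F) : (crv k).coeff 1 = C k * (X ^ 2 - 1) := by
  unfold crv
  generalize (C k * (X ^ 2 - 1) : F[X]) = b
  simp [coeff_C]

lemma crv_coeff_two (k : F) : (crv k).coeff 2 = X := by
  unfold crv
  generalize (C k * (X ^ 2 - 1) : F[X]) = b
  simp [coeff_X]

lemma crv_lead (k : F) : (crv k).leadingCoeff = X := by
  unfold leadingCoeff
  rw [crv_natDegree, crv_coeff_two]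

lemma dvd_X_cases {p : F[X]} (hp : p ∣ X) : ∃ c : F, c ≠ 0 ∧ (p = C c ∨ p = C c * X) := by
  rcases irreducible_X.dvd_iff.1 hp with h | h
  · obtain ⟨c, hc, rfl⟩ := Polynomial.isUnit_iff.1 h
    exact ⟨c, hc.ne_zero, Or.inl rfl⟩
  · obtain ⟨v, hv⟩ := h
    obtain ⟨c, hc, hc2⟩ := Polynomial.isUnit_iff.1 v.isUnit
    refine ⟨c, hc.ne_zero, Or.inr ?_⟩
    rw [← hv, hc2, mul_comm]

lemma crv_primitive {k : F} (hk : k ≠ 0) : (crv k).IsPrimitive := by
  intro r hr
  rw [C_dvd_iff_dvd_coeff] at hr
  have h2 := hr 2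
  have h1 := hr 1
  rw [crv_coeff_two] at h2
  rw [crv_coeff_one] at h1
  obtain ⟨c, hc, rfl | rfl⟩ := dvd_X_cases h2
  · exact Polynomial.isUnit_C.2 hc.isUnit
  · exfalso
    obtain ⟨g, hg⟩ := h1
    have h3 := congrArg (eval 0) hg
    simp at h3
    exact hk h3

lemma no_sol {k : F} (hk : k ≠ 0) (hk1 : k ^ 2 ≠ 1) {p q : F[X]} (hp : p ∣ X) (hq : q ∣ X)
    (h : X * p ^ 2 + C k * (X ^ 2 - 1) * p * q - X * q ^ 2 = 0) : False := by
  obtain ⟨c, hc, hpc⟩ := dvd_X_cases hp
  obtain ⟨d, hd, hqd⟩ := dvd_X_cases hq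
  have hX : (X : F[X]) ≠ 0 := X_ne_zero
  rcases hpc with rfl | rfl <;> rcases hqd with rfl | rfl
  · have h0 := congrArg (eval 0) h
    simp at h0
    tauto
  · have h1 : C c ^ 2 + C k * (X ^ 2 - 1) * C c * C d - C d ^ 2 * X ^ 2 = 0 := by
      apply mul_left_cancel₀ hX
      linear_combination h
    have h2 := congrArg (eval 0) h1
    have h3 := congrArg (eval 1) h1
    simp at h2 h3
    apply hk1
    have h4 : c = k * d := by
      apply mul_left_cancel₀ hc
      linear_combination h2
    have h5 : (k ^ 2 - 1) * d ^ 2 = 0 := by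
      rw [h4] at h3
      linear_combination h3
    have h6 := (mul_eq_zero.1 h5).resolve_right (pow_ne_zero 2 hd)
    linear_combination h6
  · have h1 : C c ^ 2 * X ^ 2 + C k * (X ^ 2 - 1) * C c * C d - C d ^ 2 = 0 := by
      apply mul_left_cancel₀ hX
      linear_combination h
    have h2 := congrArg (eval 0) h1
    have h3 := congrArg (eval 1) h1
    simp at h2 h3
    apply hk1
    have h4 : d = -(k * c) := by
      apply mul_left_cancel₀ hd
      linear_combination -h2
    have h5 : (k ^ 2 - 1) * c ^ 2 = 0 := by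
      rw [h4] at h3
      linear_combination -h3
    have h6 := (mul_eq_zero.1 h5).resolve_right (pow_ne_zero 2 hc)
    linear_combination h6
  · have h1 : C c ^ 2 * X + C k * (X ^ 2 - 1) * C c * C d - C d ^ 2 * X = 0 := by
      apply mul_left_cancel₀ (pow_ne_zero 2 hX)
      linear_combination h
    have h2 := congrArg (eval 0) h1
    simp at h2
    tauto

theorem crv_irreducible {k : F} (hk : k ≠ 0) (hk1 : k ^ 2 ≠ 1) : Irreducible (crv k) := by
  rw [(crv_primitive hk).irreducible_iff_irreducible_map_fraction_map (K := FractionRing F[X])]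
  have hinj : Function.Injective (algebraMap F[X] (FractionRing F[X])) :=
    IsFractionRing.injective _ _
  have hdeg : ((crv k).map (algebraMap F[X] (FractionRing F[X]))).natDegree = 2 := by
    rw [natDegree_map_eq_of_injective hinj, crv_natDegree]
  rw [irreducible_iff_roots_eq_zero_of_degree_le_three (by rw [hdeg]) (by rw [hdeg]; norm_num)]
  rw [Multiset.eq_zero_iff_forall_notMem]
  intro r hr
  have hr1 := isRoot_of_mem_roots hr
  have hr2 : aeval r (crv k) = 0 := by
    rw [IsRoot.def, eval_map_algebraMap] at hr1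
    exact hr1
  have hn := num_dvd_of_is_root hr2
  have hd := den_dvd_of_is_root hr2
  rw [crv_coeff_zero, dvd_neg] at hn
  rw [crv_lead] at hd
  set p := IsFractionRing.num F[X] r with hp
  set q := (IsFractionRing.den F[X] r : F[X]) with hq
  have hq0 : algebraMap F[X] (FractionRing F[X]) q ≠ 0 := by
    rw [Ne, FaithfulSMul.algebraMap_eq_zero_iff]
    exact nonZeroDivisors.ne_zero (IsFractionRing.den F[X] r).2
  have hrpq : r = algebraMap F[X] (FractionRing F[X]) p / algebraMap F[X] (FractionRing F[X]) q := by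
    have := IsFractionRing.mk'_num_den' F[X] r
    exact this.symm
  refine no_sol hk hk1 hn hd ?_
  apply hinj
  rw [map_zero]
  have h1 : aeval r (crv k) = algebraMap F[X] (FractionRing F[X]) X * r ^ 2 +
      algebraMap F[X] (FractionRing F[X]) (C k * (X ^ 2 - 1)) * r -
      algebraMap F[X] (FractionRing F[X]) X := by
    unfold crv
    simp only [map_add, map_sub, map_mul, map_pow, aeval_X, aeval_C]
  rw [h1, hrpq] at hr2
  simp only [map_add, map_sub, map_mul, map_pow, map_one] at hr2 ⊢
  field_simp at hr2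
  linear_combination hr2

end irr

section lift

variable {F : Type*} [Field F] {L : Type*} [Field L] [Algebra F L] {k : F} {ξ η : L}

/-- evaluation at `(ξ, η)` -/
noncomputable def evF (F : Type*) [Field F] {L : Type*} [Field L] [Algebra F L] (ξ η : L) :
    F[X][X] →+* L :=
  eval₂RingHom (aeval ξ : F[X] →ₐ[F] L).toRingHom η

@[simp] lemma evF_C (q : F[X]) : evF F ξ η (C q) = aeval ξ q := by
  unfold evF
  rw [coe_eval₂RingHom, eval₂_C]
  rfl

@[simp] lemma evF_X : evF F ξ η (X : F[X][X]) = η := by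
  unfold evF
  rw [coe_eval₂RingHom, eval₂_X]

lemma evF_crv (hξ0 : ξ ≠ 0) (hη0 : η ≠ 0)
    (h : η - η⁻¹ + algebraMap F L k * (ξ - ξ⁻¹) = 0) : evF F ξ η (crv k) = 0 := by
  unfold crv
  simp only [map_add, map_sub, map_mul, map_pow, map_one, evF_C, evF_X, aeval_X, aeval_C]
  field_simp at h
  linear_combination h

lemma dvd_of_evF (hk : k ≠ 0) (hk1 : k ^ 2 ≠ 1) (hξ : Transcendental F ξ)
    (hP : evF F ξ η (crv k) = 0) {q : F[X][X]} (hq : evF F ξ η q = 0) : crv k ∣ q := by
  let φ : F[X] →+* L := (aeval ξ : F[X] →ₐ[F] L).toRingHom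
  have hφ : Function.Injective φ := transcendental_iff_injective.1 hξ
  let ψ : FractionRing F[X] →+* L := IsFractionRing.lift hφ
  have hψ : ψ.comp (algebraMap F[X] (FractionRing F[X])) = φ := by
    refine RingHom.ext fun x => ?_
    exact IsFractionRing.lift_algebraMap hφ _
  have hev : ∀ r : F[X][X], eval₂ ψ η (r.map (algebraMap F[X] (FractionRing F[X]))) =
      evF F ξ η r := by
    intro r
    rw [eval₂_map, hψ]
    rfl
  have hirr := crv_irreducible hk hk1
  have hprim : (crv k).IsPrimitive := crv_primitive hk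
  have hirr' : Irreducible ((crv k).map (algebraMap F[X] (FractionRing F[X]))) :=
    (hprim.irreducible_iff_irreducible_map_fraction_map).1 hirr
  have hdvd : (crv k).map (algebraMap F[X] (FractionRing F[X])) ∣
      q.map (algebraMap F[X] (FractionRing F[X])) := by
    by_contra hnd
    have hco : IsCoprime ((crv k).map (algebraMap F[X] (FractionRing F[X])))
        (q.map (algebraMap F[X] (FractionRing F[X]))) := (hirr'.coprime_iff_not_dvd).2 hnd
    obtain ⟨u, v, huv⟩ := hco
    have h1 := congrArg (eval₂ ψ η) huv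
    rw [eval₂_add, eval₂_mul, eval₂_mul, hev, hev, hP, hq, mul_zero, mul_zero, add_zero,
      eval₂_one] at h1
    exact zero_ne_one h1
  exact (IsPrimitive.dvd_iff_fraction_map_dvd_fraction_map (FractionRing F[X]) hprim).2 hdvd

/-- evaluation on the coordinate ring -/
noncomputable def evQ (hP : evF F ξ η (crv k) = 0) : AdjoinRoot (crv k) →+* L :=
  AdjoinRoot.lift (aeval ξ : F[X] →ₐ[F] L).toRingHom η hP

lemma evQ_mk (hP : evF F ξ η (crv k) = 0) (g : F[X][X]) :
    evQ hP (AdjoinRoot.mk _ g) = evF F ξ η g :=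
  AdjoinRoot.lift_mk _ _

lemma evQ_injective (hk : k ≠ 0) (hk1 : k ^ 2 ≠ 1) (hξ : Transcendental F ξ)
    (hP : evF F ξ η (crv k) = 0) : Function.Injective (evQ hP) := by
  rw [injective_iff_map_eq_zero]
  intro z hz
  obtain ⟨q, rfl⟩ := AdjoinRoot.mk_surjective z
  rw [evQ_mk] at hz
  rw [AdjoinRoot.mk_eq_zero]
  exact dvd_of_evF hk hk1 hξ hP hz

end lift

section frac

variable {F : Type*} [Field F] [Algebra F ℂ] {K : Type*} [Field K] [Algebra F K] {x y : K} {k : F}

/-- Loops on the curve `η - 1/η + k (ξ - 1/ξ) = 0` with `ξ t` transcendental for all `t` give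
ring homomorphisms from the function field to the loop ring. -/
theorem exists_homF (hk : k ≠ 0) (hk1 : k ^ 2 ≠ 1) (hx : Transcendental F x) (hy : y ≠ 0)
    (h : y - y⁻¹ + algebraMap F K k * (x - x⁻¹) = 0) (hK : IntermediateField.adjoin F {x, y} = ⊤)
    {ξ η : ℝ → ℂ} (hξ : ξ ∈ LoopRing) (hη : η ∈ LoopRing) (hξt : ∀ t, Transcendental F (ξ t))
    (hη0 : ∀ t, η t ≠ 0)
    (hP : ∀ t, η t - (η t)⁻¹ + algebraMap F ℂ k * (ξ t - (ξ t)⁻¹) = 0) :
    ∃ γ : K →+* LoopRing, (γ x : ℝ → ℂ) = ξ ∧ (γ y : ℝ → ℂ) = η := by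
  have hx0 : x ≠ 0 := by
    rintro rfl
    exact hx (isAlgebraic_zero)
  have hξ0 : ∀ t, ξ t ≠ 0 := by
    intro t h0
    apply hξt t
    rw [h0]
    exact isAlgebraic_zero
  have hev := evF_crv hx0 hy h
  have hevt : ∀ t, evF F (ξ t) (η t) (crv k) = 0 := fun t => evF_crv (hξ0 t) (hη0 t) (hP t)
  have hinj := evQ_injective hk hk1 hx hev
  have : IsDomain (AdjoinRoot (crv k)) := hinj.isDomain _
  let _ : Algebra (AdjoinRoot (crv k)) K := (evQ hev).toAlgebra
  have halg : ∀ s, algebraMap (AdjoinRoot (crv k)) K s = evQ hev s := fun s => rfl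
  have : FaithfulSMul (AdjoinRoot (crv k)) K := by
    rw [faithfulSMul_iff_algebraMap_injective]
    exact hinj
  have hrange : ∀ z ∈ Algebra.adjoin F {x, y}, ∃ s, evQ hev s = z := by
    intro z hz
    induction hz using Algebra.adjoin_induction with
    | mem z hz =>
      rcases hz with rfl | hz
      · refine ⟨AdjoinRoot.mk _ (C X), ?_⟩
        rw [evQ_mk, evF_C, aeval_X]
      · rw [Set.mem_singleton_iff] at hz
        subst hz
        refine ⟨AdjoinRoot.mk _ X, ?_⟩
        rw [evQ_mk, evF_X]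
    | algebraMap q =>
      refine ⟨AdjoinRoot.mk _ (C (C q)), ?_⟩
      rw [evQ_mk, evF_C, aeval_C]
    | add a b _ _ ha hb =>
      obtain ⟨s, rfl⟩ := ha
      obtain ⟨s', rfl⟩ := hb
      exact ⟨s + s', map_add _ _ _⟩
    | mul a b _ _ ha hb =>
      obtain ⟨s, rfl⟩ := ha
      obtain ⟨s', rfl⟩ := hb
      exact ⟨s * s', map_mul _ _ _⟩
  have hsurj : ∀ z : K, ∃ a b : AdjoinRoot (crv k), z = evQ hev a / evQ hev b := by
    intro z
    have hz : z ∈ IntermediateField.adjoin F {x, y} := by
      rw [hK]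
      trivial
    obtain ⟨r, hr, s, hs, rfl⟩ := IntermediateField.mem_adjoin_iff_div.1 hz
    obtain ⟨a, rfl⟩ := hrange r hr
    obtain ⟨b, rfl⟩ := hrange s hs
    exact ⟨a, b, rfl⟩
  have : IsFractionRing (AdjoinRoot (crv k)) K := by
    refine IsFractionRing.of_field _ _ fun z => ?_
    obtain ⟨a, b, rfl⟩ := hsurj z
    exact ⟨a, b, rfl⟩
  -- the embedding at each `t`
  let γt : ℝ → (K →+* ℂ) := fun t =>
    IsFractionRing.lift (evQ_injective hk hk1 (hξt t) (hevt t))
  have hγt : ∀ t s, γt t (evQ hev s) = evQ (hevt t) s := by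
    intro t s
    exact IsFractionRing.lift_algebraMap (evQ_injective hk hk1 (hξt t) (hevt t)) s
  -- smoothness of the evaluation of elements of `S`
  have hS : ∀ s, (fun t => evQ (hevt t) s) ∈ LoopRing := by
    intro s
    obtain ⟨q, rfl⟩ := AdjoinRoot.mk_surjective s
    have e : (fun t => evQ (hevt t) (AdjoinRoot.mk (crv k) q)) =
        fun t => evF F (ξ t) (η t) q := by
      funext t
      exact evQ_mk _ _
    rw [e]
    have hpoly : ∀ p : F[X], (fun t => aeval (ξ t) p) ∈ LoopRing := by
      intro p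
      constructor
      · have h1 : ContDiff ℂ 1 (fun z : ℂ => aeval z p) := Polynomial.contDiff_aeval p 1
        exact (h1.restrict_scalars ℝ).comp hξ.1
      · intro t
        have := hξ.2 t
        simp only [this]
    clear e
    induction q using Polynomial.induction_on' with
    | add p q hp hq =>
      have : (fun t => evF F (ξ t) (η t) (p + q)) =
          (fun t => evF F (ξ t) (η t) p) + (fun t => evF F (ξ t) (η t) q) := by
        funext t
        simp only [map_add, Pi.add_apply]
      rw [this]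
      exact LoopRing.add_mem hp hq
    | monomial n p =>
      have : (fun t => evF F (ξ t) (η t) (monomial n p)) =
          (fun t => aeval (ξ t) p) * η ^ n := by
        funext t
        rw [← C_mul_X_pow_eq_monomial, map_mul, map_pow, evF_C, evF_X]
        rfl
      rw [this]
      exact LoopRing.mul_mem (hpoly p) (LoopRing.pow_mem hη n)
  -- smoothness in general
  have hsm : ∀ z : K, (fun t => γt t z) ∈ LoopRing := by
    intro z
    obtain ⟨a, b, rfl⟩ := hsurj z
    by_cases hb : evQ hev b = 0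
    · rw [hb, div_zero]
      simp only [map_zero]
      exact LoopRing.zero_mem
    · have hb' : ∀ t, evQ (hevt t) b ≠ 0 := by
        intro t h0
        apply hb
        rw [← hγt t] at h0
        exact (map_eq_zero (γt t)).1 h0
      have e : (fun t => γt t (evQ hev a / evQ hev b)) =
          (fun t => evQ (hevt t) a) * (fun t => evQ (hevt t) b)⁻¹ := by
        funext t
        simp only [Pi.mul_apply, Pi.inv_apply]
        rw [map_div₀, hγt, hγt, div_eq_mul_inv]
      rw [e]
      refine LoopRing.mul_mem (hS a) ⟨(hS b).1.inv hb', fun t => ?_⟩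
      exact congrArg (·⁻¹) ((hS b).2 t)
  refine ⟨{ toFun := fun z => ⟨fun t => γt t z, hsm z⟩
            map_one' := ?_, map_mul' := ?_, map_zero' := ?_, map_add' := ?_ }, ?_, ?_⟩
  · ext t
    simp
  · intro a b
    ext t
    simp
  · ext t
    simp
  · intro a b
    ext t
    simp
  · funext t
    show γt t x = ξ t
    have e1 : x = evQ hev (AdjoinRoot.mk _ (C X)) := by
      rw [evQ_mk, evF_C, aeval_X]
    rw [e1, hγt, evQ_mk, evF_C, aeval_X]
  · funext t
    show γt t y = η t
    have e1 : y = evQ hev (AdjoinRoot.mk _ X) := by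
      rw [evQ_mk, evF_X]
    rw [e1, hγt, evQ_mk, evF_X]

end frac

end Pool.Agent.Helper12.RQ
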