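import Mathlib

/-!
The integral of `t / sin t` over a quarter period.
-/

namespace Pool.Agent.Helper12.RQ

open Real Set

lemma sinc_pos {t : ℝ} (h0 : 0 ≤ t) (h1 : t ≤ π / 2) : 0 < sinc t := by
  rcases h0.eq_or_lt with h | h
  · rw [← h, sinc_zero]
    norm_num
  · rw [sinc_of_ne_zero h.ne']
    have := sin_pos_of_pos_of_lt_pi h (by linarith [pi_pos])
    positivity

lemma one_add_cos_pos {t : ℝ} (h0 : 0 ≤ t) (h1 : t ≤ π / 2) : 0 < 1 + cos t := by
  have := cos_nonneg_of_mem_Icc (x := t) ⟨by linarith [pi_pos], h1⟩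
  linarith

lemma intInt_sinc : IntervalIntegrable (fun t => (sinc t)⁻¹) MeasureTheory.volume 0 (π / 2) := by
  apply ContinuousOn.intervalIntegrable
  rw [uIcc_of_le (by positivity)]
  exact (continuous_sinc.continuousOn).inv₀ fun t ht => (sinc_pos ht.1 ht.2).ne'

lemma intInt_log_sin :
    IntervalIntegrable (fun t => log (sin t)) MeasureTheory.volume 0 (π / 2) :=
  intervalIntegrable_log_sin

lemma intInt_log : IntervalIntegrable (fun t => log (1 + cos t)) MeasureTheory.volume 0 (π / 2) := by
  apply ContinuousOn.intervalIntegrable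
  rw [uIcc_of_le (by positivity)]
  exact ((continuous_const.add continuous_cos).continuousOn).log
    fun t ht => (one_add_cos_pos ht.1 ht.2).ne'

theorem int_sinc_inv : ∫ t in (0 : ℝ)..(π / 2), (sinc t)⁻¹ =
    (∫ t in (0 : ℝ)..(π / 2), log (1 + cos t)) + log 2 * π / 2 := by
  have hpi := pi_pos
  have key : ∫ t in (0 : ℝ)..(π / 2), (log (sin t) - log (1 + cos t) + (sinc t)⁻¹) =
      ((sinc (π / 2))⁻¹ * (-negMulLog (sin (π / 2))) - (π / 2) * log (1 + cos (π / 2))) -
      ((sinc 0)⁻¹ * (-negMulLog (sin 0)) - 0 * log (1 + cos 0)) := by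
    refine intervalIntegral.integral_eq_sub_of_hasDerivAt_of_le
      (f := fun t => (sinc t)⁻¹ * (-negMulLog (sin t)) - t * log (1 + cos t))
      (by positivity) ?_ ?_ ?_
    · refine ContinuousOn.sub ?_ ?_
      · refine ContinuousOn.mul ?_ ?_
        · exact (continuous_sinc.continuousOn).inv₀ fun t ht => (sinc_pos ht.1 ht.2).ne'
        · exact ((continuous_negMulLog.comp continuous_sin).neg).continuousOn
      · exact continuousOn_id.mul (((continuous_const.add continuous_cos).continuousOn).log
          fun t ht => (one_add_cos_pos ht.1 ht.2).ne')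
    · intro t ht
      have hs : 0 < sin t := sin_pos_of_pos_of_lt_pi ht.1 (by linarith [ht.2])
      have hc : 0 < 1 + cos t := one_add_cos_pos ht.1.le ht.2.le
      have h1 : HasDerivAt (fun t => t * log (sin t) - t * log (1 + cos t))
          (log (sin t) - log (1 + cos t) + (sinc t)⁻¹) t := by
        have a1 := (hasDerivAt_id t).mul ((hasDerivAt_sin t).log hs.ne')
        have a2 := (hasDerivAt_id t).mul (((hasDerivAt_cos t).const_add 1).log hc.ne')
        refine (a1.sub a2).congr_deriv ?_
        rw [sinc_of_ne_zero ht.1.ne']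
        simp only [id]
        have := ht.1.ne'
        have h3 := sin_sq_add_cos_sq t
        field_simp
        linear_combination t * h3
      refine h1.congr_of_eventuallyEq ?_
      have hev : ∀ᶠ s in nhds t, s ∈ Ioo 0 (π / 2) := Ioo_mem_nhds ht.1 ht.2
      filter_upwards [hev] with s hs'
      have hs2 : 0 < sin s := sin_pos_of_pos_of_lt_pi hs'.1 (by linarith [hs'.2])
      rw [sinc_of_ne_zero hs'.1.ne']
      unfold negMulLog
      have := hs'.1.ne'
      field_simp
    · exact (intInt_log_sin.sub intInt_log).add intInt_sinc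
  have h1 : ∫ t in (0 : ℝ)..(π / 2), (log (sin t) - log (1 + cos t) + (sinc t)⁻¹) =
      (∫ t in (0 : ℝ)..(π / 2), log (sin t)) - (∫ t in (0 : ℝ)..(π / 2), log (1 + cos t)) +
        ∫ t in (0 : ℝ)..(π / 2), (sinc t)⁻¹ := by
    rw [intervalIntegral.integral_add (intInt_log_sin.sub intInt_log) intInt_sinc,
      intervalIntegral.integral_sub intInt_log_sin intInt_log]
  rw [h1, integral_log_sin_zero_pi_div_two] at key
  simp at key
  linarith

end Pool.Agent.Helper12.RQ
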