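import Mathlib

/-!
The functions `sq z = √(1 + z²)` and `ash z = arcsinh z` on the unit disc.
-/

namespace Pool.Agent.Helper12.RQ

open Complex

/-- `√(1 + z²)` -/
noncomputable def sq (z : ℂ) : ℂ := exp (log (1 + z ^ 2) / 2)

/-- `arcsinh z` -/
noncomputable def ash (z : ℂ) : ℂ := log (sq z + z)

lemma norm_sq_lt {z : ℂ} (hz : ‖z‖ < 1) : ‖z ^ 2‖ < 1 := by
  rw [norm_pow]
  exact pow_lt_one₀ (norm_nonneg _) hz (by norm_num)

lemma re_pos {z : ℂ} (hz : ‖z‖ < 1) : 0 < (1 + z ^ 2).re := by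
  have h1 := abs_re_le_norm (z ^ 2)
  have h2 := norm_sq_lt hz
  have h3 := (abs_lt.1 (lt_of_le_of_lt h1 h2)).1
  rw [add_re, one_re]
  linarith

lemma mem_slit {z : ℂ} (hz : ‖z‖ < 1) : 1 + z ^ 2 ∈ slitPlane := Or.inl (re_pos hz)

lemma one_add_ne {z : ℂ} (hz : ‖z‖ < 1) : 1 + z ^ 2 ≠ 0 := slitPlane_ne_zero (mem_slit hz)

lemma sq_sq {z : ℂ} (hz : ‖z‖ < 1) : sq z ^ 2 = 1 + z ^ 2 := by
  unfold sq
  rw [← exp_nat_mul]
  have e : ((2 : ℕ) : ℂ) * (log (1 + z ^ 2) / 2) = log (1 + z ^ 2) := by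
    push_cast
    ring
  rw [e, exp_log (one_add_ne hz)]

lemma sq_ne (z : ℂ) : sq z ≠ 0 := exp_ne_zero _

lemma sq_neg (z : ℂ) : sq (-z) = sq z := by
  unfold sq
  rw [neg_sq]

lemma sq_zero : sq 0 = 1 := by
  unfold sq
  simp

lemma sq_re_pos {z : ℂ} (hz : ‖z‖ < 1) : 0 < (sq z).re := by
  unfold sq
  rw [exp_re]
  apply mul_pos (Real.exp_pos _)
  apply Real.cos_pos_of_mem_Ioo
  have h1 : (log (1 + z ^ 2) / 2).im = arg (1 + z ^ 2) / 2 := by
    have : (log (1 + z ^ 2) / 2) = ((2 : ℝ) : ℂ)⁻¹ * log (1 + z ^ 2) := by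
      push_cast
      ring
    rw [this, ← ofReal_inv, im_ofReal_mul, log_im]
    ring
  rw [h1]
  have h2 := abs_arg_lt_pi_div_two_iff.2 (Or.inl (re_pos hz))
  have h3 := abs_lt.1 h2
  have := Real.pi_pos
  constructor <;> linarith

lemma inv_re_pos {w : ℂ} (hw : 0 < w.re) : 0 < (w⁻¹).re := by
  rw [inv_re]
  apply div_pos hw
  apply normSq_pos.2
  rintro rfl
  simp at hw

lemma sq_inv_re_pos {z : ℂ} (hz : ‖z‖ < 1) : 0 < ((sq z)⁻¹).re := inv_re_pos (sq_re_pos hz)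

lemma prod_eq_one {z : ℂ} (hz : ‖z‖ < 1) : (sq z + z) * (sq z - z) = 1 := by
  linear_combination sq_sq hz

lemma add_ne {z : ℂ} (hz : ‖z‖ < 1) : sq z + z ≠ 0 := left_ne_zero_of_mul_eq_one (prod_eq_one hz)

lemma inv_add {z : ℂ} (hz : ‖z‖ < 1) : (sq z + z)⁻¹ = sq z - z :=
  (eq_inv_of_mul_eq_one_right (prod_eq_one hz)).symm

lemma add_re_pos {z : ℂ} (hz : ‖z‖ < 1) : 0 < (sq z + z).re := by
  set w := sq z + z with hw
  have h1 : w + w⁻¹ = 2 * sq z := by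
    rw [inv_add hz, hw]
    ring
  have h2 : 0 < (w + w⁻¹).re := by
    rw [h1]
    have : (2 * sq z : ℂ).re = 2 * (sq z).re := by simp
    rw [this]
    have := sq_re_pos hz
    linarith
  have hn : 0 < normSq w := normSq_pos.2 (add_ne hz)
  rw [add_re, inv_re] at h2
  have h3 : w.re + w.re / normSq w = w.re * (1 + (normSq w)⁻¹) := by
    field_simp
  rw [h3] at h2
  exact (pos_iff_pos_of_mul_pos h2).2 (by positivity)

lemma add_mem_slit {z : ℂ} (hz : ‖z‖ < 1) : sq z + z ∈ slitPlane := Or.inl (add_re_pos hz)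

lemma hasDerivAt_sq {z : ℂ} (hz : ‖z‖ < 1) : HasDerivAt sq (z / sq z) z := by
  have h1 : HasDerivAt (fun z : ℂ => 1 + z ^ 2) (2 * z) z := by
    have := ((hasDerivAt_id z).pow 2).const_add 1
    simpa using this
  have h2 := ((h1.clog (mem_slit hz)).div_const 2).cexp
  refine h2.congr_deriv ?_
  change sq z * _ = _
  rw [← sq_sq hz]
  have := sq_ne z
  field_simp

lemma hasDerivAt_ash {z : ℂ} (hz : ‖z‖ < 1) : HasDerivAt ash (sq z)⁻¹ z := by
  have h1 := ((hasDerivAt_sq hz).add (hasDerivAt_id z)).clog (add_mem_slit hz)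
  refine h1.congr_deriv ?_
  have h2 := sq_ne z
  have h3 := add_ne hz
  simp only [Pi.add_apply, id]
  field_simp
  ring

lemma ash_zero : ash 0 = 0 := by
  unfold ash
  rw [sq_zero, add_zero, log_one]

lemma exp_ash {z : ℂ} (hz : ‖z‖ < 1) : exp (ash z) = sq z + z := exp_log (add_ne hz)

lemma exp_neg_ash {z : ℂ} (hz : ‖z‖ < 1) : exp (-ash z) = sq z - z := by
  rw [exp_neg, exp_ash hz, inv_add hz]

lemma ash_neg {z : ℂ} (hz : ‖z‖ < 1) : ash (-z) = -ash z := by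
  unfold ash
  rw [sq_neg, ← sub_eq_add_neg, ← inv_add hz, log_inv]
  exact slitPlane_arg_ne_pi (add_mem_slit hz)

lemma analyticAt_sq {z : ℂ} (hz : ‖z‖ < 1) : AnalyticAt ℂ sq z := by
  unfold sq
  have h1 : AnalyticAt ℂ (fun z : ℂ => 1 + z ^ 2) z := analyticAt_const.add (analyticAt_id.pow 2)
  exact ((h1.clog (mem_slit hz)).div analyticAt_const (by norm_num)).cexp

lemma analyticAt_ash {z : ℂ} (hz : ‖z‖ < 1) : AnalyticAt ℂ ash z := by
  unfold ash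
  exact ((analyticAt_sq hz).add analyticAt_id).clog (add_mem_slit hz)

/-- `|1 + √(1 + z²)| > 1` -/
lemma one_lt_norm {z : ℂ} (hz : ‖z‖ < 1) : 1 < ‖1 + sq z‖ := by
  have h1 := sq_re_pos hz
  have h2 : (1 + sq z).re ≤ ‖1 + sq z‖ := re_le_norm _
  rw [add_re, one_re] at h2
  linarith

lemma one_add_sq_ne {z : ℂ} (hz : ‖z‖ < 1) : 1 + sq z ≠ 0 := by
  intro h
  have := one_lt_norm hz
  rw [h, norm_zero] at this
  linarith

end Pool.Agent.Helper12.RQ
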