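import Mathlib
import Pool.Agent.Helper11.Circle
import Pool.Agent.Helper12.RQ.Ash

/-!
The loops on `x - 1/x + k (Y - 1/Y) = 0` and the regulator integrals over them.
-/

namespace Pool.Agent.Helper12.RQ

open Complex Pool.Agent.Helper11

/-- the admissible radii -/
structure Par (ρ k : ℝ) : Prop where
  pos : 0 < ρ
  lt : ρ < 1
  bd : |k| * (ρ + ρ⁻¹) < 2

/-- the coordinate `Y` -/
noncomputable def YY (ρ : ℝ) : ℝ → ℂ := circleMap 0 ρ

/-- `Y - 1/Y` -/
noncomputable def ze (ρ t : ℝ) : ℂ := YY ρ t - (YY ρ t)⁻¹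

/-- `k (Y - 1/Y) / 2` -/
noncomputable def zz (ρ k t : ℝ) : ℂ := ((k / 2 : ℝ) : ℂ) * ze ρ t

/-- the coordinate `x` -/
noncomputable def xx (ρ k t : ℝ) : ℂ := sq (zz ρ k t) - zz ρ k t

/-- the coordinate `y = (1 + Y) / (1 - Y)` -/
noncomputable def yy (ρ t : ℝ) : ℂ := (1 + YY ρ t) / (1 - YY ρ t)

/-- `X = (x - 1) / (x + 1)` -/
noncomputable def XX (ρ k t : ℝ) : ℂ := (xx ρ k t - 1) / (xx ρ k t + 1)

lemma norm_YY {ρ : ℝ} (h : 0 < ρ) (t : ℝ) : ‖YY ρ t‖ = ρ := by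
  unfold YY
  rw [norm_circleMap_zero, abs_of_pos h]

lemma YY_ne {ρ : ℝ} (h : 0 < ρ) (t : ℝ) : YY ρ t ≠ 0 := by
  rw [← norm_pos_iff, norm_YY h]
  exact h

lemma YY_per (ρ : ℝ) : Function.Periodic (YY ρ) (2 * Real.pi) := periodic_circleMap 0 ρ

lemma YY_contDiff (ρ : ℝ) : ContDiff ℝ 1 (YY ρ) := contDiff_circleMap 0 ρ

lemma YY_hasDerivAt (ρ t : ℝ) : HasDerivAt (YY ρ) (YY ρ t * I) t := hasDerivAt_circleMap 0 ρ t

lemma isLoop_YY {ρ : ℝ} (h : 0 < ρ) : IsLoop (YY ρ) := ⟨YY_contDiff ρ, YY_per ρ, YY_ne h⟩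

lemma norm_ze_le {ρ : ℝ} (h : 0 < ρ) (t : ℝ) : ‖ze ρ t‖ ≤ ρ + ρ⁻¹ := by
  unfold ze
  refine (norm_sub_le _ _).trans ?_
  rw [norm_inv, norm_YY h]

lemma ze_contDiff {ρ : ℝ} (h : 0 < ρ) : ContDiff ℝ 1 (ze ρ) :=
  (YY_contDiff ρ).sub ((YY_contDiff ρ).inv (YY_ne h))

lemma ze_per (ρ t : ℝ) : ze ρ (t + 2 * Real.pi) = ze ρ t := by
  unfold ze
  rw [YY_per ρ t]

section one

variable {ρ : ℝ}

lemma one_sub_sq_ne {Y : ℂ} (h : ‖Y‖ < 1) : 1 - Y ^ 2 ≠ 0 := by
  intro h0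
  have h1 : ‖Y ^ 2‖ = 1 := by
    have : Y ^ 2 = 1 := by linear_combination -h0
    rw [this, norm_one]
  have h2 := norm_sq_lt h
  linarith

lemma one_sub_ne {Y : ℂ} (h : ‖Y‖ < 1) : 1 - Y ≠ 0 := by
  intro h0
  apply one_sub_sq_ne h
  linear_combination (1 + Y) * h0

lemma one_add_ne' {Y : ℂ} (h : ‖Y‖ < 1) : 1 + Y ≠ 0 := by
  intro h0
  apply one_sub_sq_ne h
  linear_combination (1 - Y) * h0

lemma ze_ne (h : 0 < ρ) (h1 : ρ < 1) (t : ℝ) : ze ρ t ≠ 0 := by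
  intro h0
  have h2 := YY_ne h t
  have h3 : ‖YY ρ t‖ < 1 := by rwa [norm_YY h]
  apply one_sub_sq_ne h3
  unfold ze at h0
  field_simp at h0
  linear_combination -h0

lemma isLoop_yy (h : 0 < ρ) (h1 : ρ < 1) : IsLoop (yy ρ) := by
  have h3 : ∀ t, ‖YY ρ t‖ < 1 := fun t => by rwa [norm_YY h]
  refine ⟨?_, fun t => ?_, fun t => ?_⟩
  · have e : yy ρ = fun t => (1 + YY ρ t) * (1 - YY ρ t)⁻¹ := by
      funext t
      unfold yy
      rw [div_eq_mul_inv]
    rw [e]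
    exact (contDiff_const.add (YY_contDiff ρ)).mul
      ((contDiff_const.sub (YY_contDiff ρ)).inv fun t => one_sub_ne (h3 t))
  · unfold yy
    rw [YY_per ρ t]
  · exact div_ne_zero (one_add_ne' (h3 t)) (one_sub_ne (h3 t))

lemma dlog_yy (h : 0 < ρ) (h1 : ρ < 1) (t : ℝ) :
    deriv (yy ρ) t / yy ρ t = -(2 * I) / ze ρ t := by
  have h3 : ‖YY ρ t‖ < 1 := by rwa [norm_YY h]
  have h4 := ((YY_hasDerivAt ρ t).const_add 1).div ((YY_hasDerivAt ρ t).const_sub 1)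
    (one_sub_ne h3)
  have h5 : deriv (yy ρ) t = _ := h4.deriv
  rw [h5]
  have h6 := one_sub_ne h3
  have h7 := one_add_ne' h3
  have h8 := YY_ne h t
  have h9 := ze_ne h h1 t
  unfold yy
  unfold ze at h9 ⊢
  have h10 := one_sub_sq_ne h3
  have h11 : YY ρ t - (YY ρ t)⁻¹ = -(1 - YY ρ t ^ 2) / YY ρ t := by
    field_simp
    ring
  rw [h11]
  have h12 : 1 - YY ρ t ^ 2 = (1 - YY ρ t) * (1 + YY ρ t) := by ring
  rw [h12]
  field_simp
  ring

end one

section two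

variable {ρ k : ℝ} (P : Par ρ k)

include P

lemma norm_zz (t : ℝ) : ‖zz ρ k t‖ < 1 := by
  unfold zz
  rw [norm_mul, norm_real, Real.norm_eq_abs, abs_div, abs_of_pos (by norm_num : (0 : ℝ) < 2)]
  have h1 := norm_ze_le P.pos t
  have h2 : |k| / 2 * ‖ze ρ t‖ ≤ |k| / 2 * (ρ + ρ⁻¹) := by gcongr
  have h3 := P.bd
  linarith

lemma zz_contDiff : ContDiff ℝ 1 (zz ρ k) := contDiff_const.mul (ze_contDiff P.pos)

omit P in
lemma zz_per (t : ℝ) : zz ρ k (t + 2 * Real.pi) = zz ρ k t := by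
  unfold zz
  rw [ze_per]

lemma comp_contDiff {f : ℂ → ℂ} (hf : ∀ z, ‖z‖ < 1 → AnalyticAt ℂ f z) :
    ContDiff ℝ 1 (fun t => f (zz ρ k t)) := by
  rw [contDiff_iff_contDiffAt]
  intro t
  have h1 : ContDiffAt ℂ 1 f (zz ρ k t) := (hf _ (norm_zz P t)).contDiffAt
  exact (h1.restrict_scalars ℝ).comp t (zz_contDiff P).contDiffAt

lemma xx_eq_exp (t : ℝ) : xx ρ k t = exp (-ash (zz ρ k t)) := by
  rw [exp_neg_ash (norm_zz P t)]
  rfl

lemma xx_ne (t : ℝ) : xx ρ k t ≠ 0 := by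
  rw [xx_eq_exp P]
  exact exp_ne_zero _

lemma xx_inv (t : ℝ) : (xx ρ k t)⁻¹ = sq (zz ρ k t) + zz ρ k t := by
  unfold xx
  rw [← inv_add (norm_zz P t), inv_inv]

lemma xx_contDiff : ContDiff ℝ 1 (xx ρ k) :=
  (comp_contDiff P fun _ h => analyticAt_sq h).sub (zz_contDiff P)

omit P in
lemma xx_per (t : ℝ) : xx ρ k (t + 2 * Real.pi) = xx ρ k t := by
  unfold xx
  rw [zz_per]

lemma isLoop_xx : IsLoop (xx ρ k) := ⟨xx_contDiff P, xx_per, xx_ne P⟩

/-- the curve equation -/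
lemma curve_eq (t : ℝ) :
    xx ρ k t - (xx ρ k t)⁻¹ + (k : ℂ) * (YY ρ t - (YY ρ t)⁻¹) = 0 := by
  rw [xx_inv P]
  unfold xx zz ze
  push_cast
  ring

/-- `R_∞(k)` -/
noncomputable def Rinf (ρ k : ℝ) : ℝ :=
  ∫ t in (0 : ℝ)..(2 * Real.pi), (2 * ash (zz ρ k t) / ze ρ t).re

omit P in
lemma im_integral {f : ℝ → ℂ} (hf : Continuous f) (a b : ℝ) :
    (∫ t in a..b, f t).im = ∫ t in a..b, (f t).im := by
  have := Complex.imCLM.intervalIntegral_comp_comm (μ := MeasureTheory.volume)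
    (hf.intervalIntegrable a b)
  simpa using this.symm

omit P in
lemma re_integral {f : ℝ → ℂ} (hf : Continuous f) (a b : ℝ) :
    (∫ t in a..b, f t).re = ∫ t in a..b, (f t).re := by
  have := Complex.reCLM.intervalIntegral_comp_comm (μ := MeasureTheory.volume)
    (hf.intervalIntegrable a b)
  simpa using this.symm

theorem regInt_xy : regInt (xx ρ k) (yy ρ) = Rinf ρ k := by
  have hc1 : ContDiff ℝ 1 (fun t => -ash (zz ρ k t)) :=
    (comp_contDiff P fun _ h => analyticAt_ash h).neg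
  have hp1 : Function.Periodic (fun t => -ash (zz ρ k t)) (2 * Real.pi) := by
    intro t
    simp only [zz_per]
  have hx : xx ρ k = fun t => exp (-ash (zz ρ k t)) := funext (xx_eq_exp P)
  rw [regInt_antisymm, hx, regInt_exp_right (isLoop_yy P.pos P.lt) hc1 hp1, neg_neg]
  have hcont : Continuous fun t => -ash (zz ρ k t) * (deriv (yy ρ) t / yy ρ t) :=
    hc1.continuous.mul (isLoop_yy P.pos P.lt).cont_dlog
  rw [im_integral hcont]
  unfold Rinf
  refine intervalIntegral.integral_congr fun t _ => ?_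
  rw [dlog_yy P.pos P.lt]
  have e : -ash (zz ρ k t) * (-(2 * I) / ze ρ t) = I * (2 * ash (zz ρ k t) / ze ρ t) := by
    ring
  rw [e, I_mul_im]

/-- `R_0(k)` -/
noncomputable def Rzero (ρ k : ℝ) : ℝ :=
  2 * Real.pi * Real.log (|k| / 2) -
    ∫ t in (0 : ℝ)..(2 * Real.pi), Real.log ‖1 + sq (zz ρ k t)‖

lemma XX_eq (hk : k ≠ 0) (t : ℝ) :
    XX ρ k t * YY ρ t = ((k / 2 : ℝ) : ℂ) * ((1 - YY ρ t ^ 2) / (1 + sq (zz ρ k t))) := by
  have hz := norm_zz P t
  have h1 := one_add_sq_ne hz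
  have h2 := sq_sq hz
  have h8 := YY_ne P.pos t
  have hzne : zz ρ k t ≠ 0 := by
    unfold zz
    exact mul_ne_zero (ofReal_ne_zero.2 (div_ne_zero hk (by norm_num))) (ze_ne P.pos P.lt t)
  have h3 : (xx ρ k t + 1) * (-zz ρ k t) = (xx ρ k t - 1) * (1 + sq (zz ρ k t)) := by
    unfold xx
    linear_combination -h2
  have h4 : xx ρ k t + 1 ≠ 0 := by
    intro h0
    rw [h0, zero_mul] at h3
    have h5 := (mul_eq_zero.1 h3.symm).resolve_right h1
    have : (2 : ℂ) = 0 := by linear_combination h0 - h5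
    norm_num at this
  have h5 : XX ρ k t = -zz ρ k t / (1 + sq (zz ρ k t)) := by
    unfold XX
    rw [div_eq_div_iff h4 h1, mul_comm (-zz ρ k t)]
    exact h3.symm
  rw [h5]
  have h6 : zz ρ k t * YY ρ t = -(((k / 2 : ℝ) : ℂ) * (1 - YY ρ t ^ 2)) := by
    unfold zz ze
    field_simp
    ring
  field_simp
  linear_combination -h6

lemma xx_add_one_ne (hk : k ≠ 0) (t : ℝ) : xx ρ k t + 1 ≠ 0 := by
  intro h0
  have h1 := XX_eq P hk t
  unfold XX at h1
  rw [h0, div_zero, zero_mul] at h1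
  have h3 : ‖YY ρ t‖ < 1 := by
    rw [norm_YY P.pos]
    exact P.lt
  exact mul_ne_zero (ofReal_ne_zero.2 (div_ne_zero hk (by norm_num)))
    (div_ne_zero (one_sub_sq_ne h3) (one_add_sq_ne (norm_zz P t))) h1.symm

lemma XX_ne (hk : k ≠ 0) (t : ℝ) : XX ρ k t ≠ 0 := by
  intro h0
  have h1 := XX_eq P hk t
  rw [h0, zero_mul] at h1
  have h3 : ‖YY ρ t‖ < 1 := by
    rw [norm_YY P.pos]
    exact P.lt
  exact mul_ne_zero (ofReal_ne_zero.2 (div_ne_zero hk (by norm_num)))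
    (div_ne_zero (one_sub_sq_ne h3) (one_add_sq_ne (norm_zz P t))) h1.symm

lemma isLoop_XX (hk : k ≠ 0) : IsLoop (XX ρ k) := by
  refine ⟨?_, fun t => ?_, XX_ne P hk⟩
  · have e : XX ρ k = fun t => (xx ρ k t - 1) * (xx ρ k t + 1)⁻¹ := by
      funext t
      unfold XX
      rw [div_eq_mul_inv]
    rw [e]
    exact ((xx_contDiff P).sub contDiff_const).mul
      (((xx_contDiff P).add contDiff_const).inv (xx_add_one_ne P hk))
  · unfold XX
    rw [xx_per]

/-- the logarithm of `(1 - Y²) / (1 + √(1 + z²))` -/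
noncomputable def hh (ρ k t : ℝ) : ℂ := log (1 - YY ρ t ^ 2) - log (1 + sq (zz ρ k t))

omit P in
lemma one_sub_sq_slit {Y : ℂ} (h : ‖Y‖ < 1) : 1 - Y ^ 2 ∈ slitPlane := by
  have h1 : ‖-Y ^ 2‖ < 1 := by
    rw [norm_neg]
    exact norm_sq_lt h
  have := mem_slitPlane_of_norm_lt_one h1
  rwa [← sub_eq_add_neg] at this

omit P in
lemma one_add_sq_slit {z : ℂ} (hz : ‖z‖ < 1) : 1 + sq z ∈ slitPlane := by
  left
  have := sq_re_pos hz
  rw [add_re, one_re]
  linarith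

lemma hh_contDiff : ContDiff ℝ 1 (hh ρ k) := by
  have h3 : ∀ t, ‖YY ρ t‖ < 1 := fun t => by
    rw [norm_YY P.pos]
    exact P.lt
  refine ContDiff.sub ?_ ?_
  · rw [contDiff_iff_contDiffAt]
    intro t
    have h4 : ContDiffAt ℝ 1 (fun t => 1 - YY ρ t ^ 2) t :=
      (contDiff_const.sub ((YY_contDiff ρ).pow 2)).contDiffAt
    have h5 : ContDiffAt ℂ 1 log (1 - YY ρ t ^ 2) := contDiffAt_log (one_sub_sq_slit (h3 t))
    exact (h5.restrict_scalars ℝ).comp t h4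
  · refine comp_contDiff P (f := fun z => log (1 + sq z)) fun z hz => ?_
    exact (analyticAt_const.add (analyticAt_sq hz)).clog (one_add_sq_slit hz)

omit P in
lemma hh_per : Function.Periodic (hh ρ k) (2 * Real.pi) := by
  intro t
  unfold hh
  rw [YY_per ρ t, zz_per]

lemma XY_eq_exp (hk : k ≠ 0) :
    XX ρ k * YY ρ = (fun _ => ((k / 2 : ℝ) : ℂ)) * fun t => exp (hh ρ k t) := by
  funext t
  have h3 : ‖YY ρ t‖ < 1 := by
    rw [norm_YY P.pos]
    exact P.lt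
  simp only [Pi.mul_apply]
  rw [XX_eq P hk]
  unfold hh
  rw [exp_sub, exp_log (one_sub_sq_ne h3), exp_log (one_add_sq_ne (norm_zz P t))]

omit P in
/-- mean value of `log (1 - Y²)` -/
lemma mean_log (h : 0 < ρ) (h1 : ρ < 1) :
    ∫ t in (0 : ℝ)..(2 * Real.pi), log (1 - YY ρ t ^ 2) = 0 := by
  have hd : DifferentiableOn ℂ (fun z : ℂ => log (1 - z ^ 2)) (Metric.closedBall 0 ρ) := by
    intro z hz
    rw [mem_closedBall_zero_iff] at hz
    refine DifferentiableAt.differentiableWithinAt ?_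
    refine DifferentiableAt.clog ?_ (one_sub_sq_slit (lt_of_le_of_lt hz h1))
    exact (differentiableAt_const _).sub (differentiableAt_id.pow 2)
  have hdc : DiffContOnCl ℂ (fun z : ℂ => log (1 - z ^ 2)) (Metric.ball 0 |ρ|) := by
    rw [abs_of_pos h]
    exact (hd.mono (Metric.closure_ball_subset_closedBall)).diffContOnCl
  have h2 := hdc.circleAverage
  unfold Real.circleAverage at h2
  have h3 : (2 * Real.pi)⁻¹ ≠ 0 := by positivity
  have h4 : log (1 - (0 : ℂ) ^ 2) = 0 := by simp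
  rw [h4] at h2
  exact (smul_eq_zero.1 h2).resolve_left h3

theorem regInt_XY (hk : k ≠ 0) : regInt (XX ρ k) (YY ρ) = Rzero ρ k := by
  have hY := isLoop_YY P.pos
  have hX := isLoop_XX P hk
  have hc : ((k / 2 : ℝ) : ℂ) ≠ 0 := ofReal_ne_zero.2 (div_ne_zero hk (by norm_num))
  have hE := IsLoop.exp (hh_contDiff P) hh_per
  have h1 := regInt_mul_left hX hY hY
  rw [regInt_self, add_zero] at h1
  rw [← h1, XY_eq_exp P hk, regInt_mul_left (IsLoop.const hc) hE hY, regInt_const_left hY,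
    regInt_antisymm, regInt_exp_right hY (hh_contDiff P) hh_per, neg_neg]
  have hd : ∀ t, deriv (YY ρ) t / YY ρ t = I := by
    intro t
    rw [(YY_hasDerivAt ρ t).deriv]
    field_simp [YY_ne P.pos t]
  simp only [hd]
  have h2 : (∫ t in (0 : ℝ)..(2 * Real.pi), (I : ℂ)).im = 2 * Real.pi := by
    rw [intervalIntegral.integral_const, sub_zero]
    simp
  have h3 : (∫ t in (0 : ℝ)..(2 * Real.pi), hh ρ k t * I).im =
      -∫ t in (0 : ℝ)..(2 * Real.pi), Real.log ‖1 + sq (zz ρ k t)‖ := by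
    have e1 : ∫ t in (0 : ℝ)..(2 * Real.pi), hh ρ k t * I =
        (∫ t in (0 : ℝ)..(2 * Real.pi), hh ρ k t) * I := intervalIntegral.integral_mul_const _ _
    rw [e1, mul_I_im]
    have c1 : Continuous fun t => log (1 - YY ρ t ^ 2) := by
      have h4 : ∀ t, ‖YY ρ t‖ < 1 := fun t => by
        rw [norm_YY P.pos]
        exact P.lt
      exact (continuous_const.sub ((YY_contDiff ρ).continuous.pow 2)).clog
        fun t => one_sub_sq_slit (h4 t)
    have c2 : Continuous fun t => log (1 + sq (zz ρ k t)) := by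
      have := comp_contDiff P (f := fun z => log (1 + sq z)) fun z hz =>
        (analyticAt_const.add (analyticAt_sq hz)).clog (one_add_sq_slit hz)
      exact this.continuous
    have e2 : ∫ t in (0 : ℝ)..(2 * Real.pi), hh ρ k t =
        -∫ t in (0 : ℝ)..(2 * Real.pi), log (1 + sq (zz ρ k t)) := by
      unfold hh
      rw [intervalIntegral.integral_sub (c1.intervalIntegrable _ _) (c2.intervalIntegrable _ _),
        mean_log P.pos P.lt, zero_sub]
    rw [e2, neg_re, re_integral c2]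
    congr 1
    refine intervalIntegral.integral_congr fun t _ => ?_
    simp only [log_re]
  rw [h2, h3]
  unfold Rzero
  rw [norm_real, Real.norm_eq_abs, abs_div, abs_of_pos (by norm_num : (0 : ℝ) < 2)]
  ring

end two

end Pool.Agent.Helper12.RQ
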