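import Mathlib
import Pool.Agent.Helper12.RQ.Reg

/-!
Monotonicity of the regulator integrals in the parameter.
-/

namespace Pool.Agent.Helper12.RQ

open Complex Pool.Agent.Helper11

variable {ρ k k₁ k₂ : ℝ}

lemma Par.neg (P : Par ρ k) : Par ρ (-k) := ⟨P.pos, P.lt, by rw [abs_neg]; exact P.bd⟩

lemma Par.abs (P : Par ρ k) : Par ρ |k| := ⟨P.pos, P.lt, by rw [abs_abs]; exact P.bd⟩

lemma Par.of_mem (P₁ : Par ρ k₁) (P₂ : Par ρ k₂) (h : k ∈ Set.Icc k₁ k₂) : Par ρ k := by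
  refine ⟨P₁.pos, P₁.lt, ?_⟩
  have hρ : 0 < ρ + ρ⁻¹ := by
    have := P₁.pos
    positivity
  have h1 : |k| ≤ max |k₁| |k₂| := abs_le_max_abs_abs h.1 h.2
  rcases max_cases |k₁| |k₂| with ⟨h2, -⟩ | ⟨h2, -⟩
  · rw [h2] at h1
    exact lt_of_le_of_lt (by gcongr) P₁.bd
  · rw [h2] at h1
    exact lt_of_le_of_lt (by gcongr) P₂.bd

lemma Par.zero (P : Par ρ k) : Par ρ 0 := ⟨P.pos, P.lt, by simp⟩

lemma hasDerivAt_zz (t : ℝ) : HasDerivAt (fun k : ℝ => zz ρ k t) (ze ρ t / 2) k := by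
  unfold zz
  have h1 : HasDerivAt (fun k : ℝ => ((k / 2 : ℝ) : ℂ)) (((1 / 2 : ℝ)) : ℂ) k :=
    ((hasDerivAt_id k).div_const 2).ofReal_comp
  have h2 := h1.mul_const (ze ρ t)
  refine h2.congr_deriv ?_
  push_cast
  ring

lemma hasDerivAt_ginf (P : Par ρ k) (t : ℝ) :
    HasDerivAt (fun k : ℝ => (2 * ash (zz ρ k t) / ze ρ t).re) ((sq (zz ρ k t))⁻¹).re k := by
  have h1 : HasDerivAt (fun k : ℝ => ash (zz ρ k t)) ((sq (zz ρ k t))⁻¹ * (ze ρ t / 2)) k :=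
    HasDerivAt.comp (𝕜 := ℝ) (𝕜' := ℂ) k (h₂ := ash) (hasDerivAt_ash (norm_zz P t))
      (hasDerivAt_zz t)
  have h2 := (h1.const_mul 2).div_const (ze ρ t)
  have h3 := hasDerivAt_im h2
  have h4 : HasDerivAt (fun k : ℝ => (2 * ash (zz ρ k t) / ze ρ t).re)
      ((2 * ((sq (zz ρ k t))⁻¹ * (ze ρ t / 2)) / ze ρ t).re) k :=
    (Complex.reCLM.hasFDerivAt.comp_hasDerivAt k h2)
  refine h4.congr_deriv ?_
  congr 1
  have := ze_ne P.pos P.lt t
  field_simp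

lemma ginf_lt (P₁ : Par ρ k₁) (P₂ : Par ρ k₂) (h : k₁ < k₂) (t : ℝ) :
    (2 * ash (zz ρ k₁ t) / ze ρ t).re < (2 * ash (zz ρ k₂ t) / ze ρ t).re := by
  have hmono : StrictMonoOn (fun k : ℝ => (2 * ash (zz ρ k t) / ze ρ t).re) (Set.Icc k₁ k₂) := by
    refine strictMonoOn_of_deriv_pos (convex_Icc _ _) ?_ ?_
    · intro k hk
      exact (hasDerivAt_ginf (P₁.of_mem P₂ hk) t).continuousAt.continuousWithinAt
    · intro k hk
      have hk' := interior_subset hk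
      have P := P₁.of_mem P₂ hk'
      rw [(hasDerivAt_ginf P t).deriv]
      exact sq_inv_re_pos (norm_zz P t)
  exact hmono (Set.left_mem_Icc.2 h.le) (Set.right_mem_Icc.2 h.le) h

lemma continuous_ginf (P : Par ρ k) : Continuous fun t => (2 * ash (zz ρ k t) / ze ρ t).re := by
  have h1 := (comp_contDiff P fun _ h => analyticAt_ash h).continuous
  exact Complex.continuous_re.comp
    ((continuous_const.mul h1).div (ze_contDiff P.pos).continuous (ze_ne P.pos P.lt))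

theorem Rinf_lt (P₁ : Par ρ k₁) (P₂ : Par ρ k₂) (h : k₁ < k₂) : Rinf ρ k₁ < Rinf ρ k₂ := by
  have h1 : 0 < ∫ t in (0 : ℝ)..(2 * Real.pi),
      ((2 * ash (zz ρ k₂ t) / ze ρ t).re - (2 * ash (zz ρ k₁ t) / ze ρ t).re) := by
    refine intervalIntegral.intervalIntegral_pos_of_pos_on ?_ (fun t _ => ?_) Real.two_pi_pos
    · exact ((continuous_ginf P₂).sub (continuous_ginf P₁)).intervalIntegrable _ _
    · exact sub_pos.2 (ginf_lt P₁ P₂ h t)
  rw [intervalIntegral.integral_sub ((continuous_ginf P₂).intervalIntegrable _ _)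
    ((continuous_ginf P₁).intervalIntegrable _ _)] at h1
  exact sub_pos.1 h1

lemma zz_zero (t : ℝ) : zz ρ 0 t = 0 := by
  unfold zz
  simp

lemma zz_neg (t : ℝ) : zz ρ (-k) t = -zz ρ k t := by
  unfold zz
  push_cast
  ring

lemma Rinf_zero : Rinf ρ 0 = 0 := by
  unfold Rinf
  simp only [zz_zero, ash_zero]
  simp

lemma Rinf_neg (P : Par ρ k) : Rinf ρ (-k) = -Rinf ρ k := by
  unfold Rinf
  rw [← intervalIntegral.integral_neg]
  refine intervalIntegral.integral_congr fun t _ => ?_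
  rw [zz_neg, ash_neg (norm_zz P t), ← neg_re]
  congr 1
  ring

lemma Rinf_pos (P : Par ρ k) (hk : 0 < k) : 0 < Rinf ρ k := by
  have := Rinf_lt P.zero P hk
  rwa [Rinf_zero] at this

lemma abs_Rinf (P : Par ρ k) : |Rinf ρ k| = Rinf ρ |k| := by
  rcases lt_trichotomy k 0 with h | h | h
  · have h1 := Rinf_pos P.neg (neg_pos.2 h)
    rw [abs_of_neg h, ← abs_neg, ← Rinf_neg P, abs_of_pos h1]
  · rw [h, abs_zero, Rinf_zero, abs_zero]
  · rw [abs_of_pos h, abs_of_pos (Rinf_pos P h)]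

/-! ### the other integral -/

lemma hasDerivAt_gzero (P : Par ρ k) (hk : 0 < k) (t : ℝ) :
    HasDerivAt (fun k : ℝ => Real.log (k / 2) - Real.log ‖1 + sq (zz ρ k t)‖)
      (k⁻¹ * ((sq (zz ρ k t))⁻¹).re) k := by
  have hz := norm_zz P t
  have h1 : HasDerivAt (fun k : ℝ => sq (zz ρ k t)) (zz ρ k t / sq (zz ρ k t) * (ze ρ t / 2)) k :=
    HasDerivAt.comp (𝕜 := ℝ) (𝕜' := ℂ) k (h₂ := sq) (hasDerivAt_sq hz) (hasDerivAt_zz t)
  have h2 := hasDerivAt_log_norm (h1.const_add 1) (one_add_sq_ne hz)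
  have h3 : HasDerivAt (fun k : ℝ => Real.log (k / 2)) k⁻¹ k := by
    have := ((hasDerivAt_id k).div_const 2).log (by simp only [id]; positivity)
    refine this.congr_deriv ?_
    simp only [id]
    field_simp
  refine (h3.sub h2).congr_deriv ?_
  have h4 := sq_ne (zz ρ k t)
  have h5 := one_add_sq_ne hz
  have hk' : (k : ℂ) ≠ 0 := ofReal_ne_zero.2 hk.ne'
  have h6 : zz ρ k t / sq (zz ρ k t) * (ze ρ t / 2) / (1 + sq (zz ρ k t)) =
      ((k⁻¹ : ℝ) : ℂ) * (1 - (sq (zz ρ k t))⁻¹) := by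
    have h7 : zz ρ k t = k * (ze ρ t / 2) := by
      unfold zz
      push_cast
      ring
    have h8 : ze ρ t / 2 = zz ρ k t / k := by
      rw [h7]
      field_simp
    rw [h8]
    have h9 := sq_sq hz
    push_cast
    field_simp
    linear_combination -h9
  rw [h6, re_ofReal_mul, sub_re, one_re]
  ring

lemma gzero_lt (P₁ : Par ρ k₁) (P₂ : Par ρ k₂) (h0 : 0 < k₁) (h : k₁ < k₂) (t : ℝ) :
    Real.log (k₁ / 2) - Real.log ‖1 + sq (zz ρ k₁ t)‖ <
      Real.log (k₂ / 2) - Real.log ‖1 + sq (zz ρ k₂ t)‖ := by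
  have hmono : StrictMonoOn (fun k : ℝ => Real.log (k / 2) - Real.log ‖1 + sq (zz ρ k t)‖)
      (Set.Icc k₁ k₂) := by
    refine strictMonoOn_of_deriv_pos (convex_Icc _ _) ?_ ?_
    · intro k hk
      exact (hasDerivAt_gzero (P₁.of_mem P₂ hk) (h0.trans_le hk.1) t).continuousAt.continuousWithinAt
    · intro k hk
      have hk' := interior_subset hk
      have P := P₁.of_mem P₂ hk'
      have hk0 : 0 < k := h0.trans_le hk'.1
      rw [(hasDerivAt_gzero P hk0 t).deriv]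
      exact mul_pos (inv_pos.2 hk0) (sq_inv_re_pos (norm_zz P t))
  exact hmono (Set.left_mem_Icc.2 h.le) (Set.right_mem_Icc.2 h.le) h

lemma continuous_gzero (P : Par ρ k) : Continuous fun t => Real.log ‖1 + sq (zz ρ k t)‖ := by
  have h1 := (comp_contDiff P fun _ h => analyticAt_sq h).continuous
  exact ((continuous_const.add h1).norm).log
    fun t => norm_ne_zero_iff.2 (one_add_sq_ne (norm_zz P t))

lemma Rzero_eq (P : Par ρ k) (hk : 0 < k) : Rzero ρ k =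
    ∫ t in (0 : ℝ)..(2 * Real.pi), (Real.log (k / 2) - Real.log ‖1 + sq (zz ρ k t)‖) := by
  unfold Rzero
  rw [intervalIntegral.integral_sub (continuous_const.intervalIntegrable _ _)
    ((continuous_gzero P).intervalIntegrable _ _), intervalIntegral.integral_const, abs_of_pos hk,
    smul_eq_mul, sub_zero]

theorem Rzero_lt (P₁ : Par ρ k₁) (P₂ : Par ρ k₂) (h0 : 0 < k₁) (h : k₁ < k₂) :
    Rzero ρ k₁ < Rzero ρ k₂ := by
  have c₁ : Continuous fun t => Real.log (k₁ / 2) - Real.log ‖1 + sq (zz ρ k₁ t)‖ :=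
    continuous_const.sub (continuous_gzero P₁)
  have c₂ : Continuous fun t => Real.log (k₂ / 2) - Real.log ‖1 + sq (zz ρ k₂ t)‖ :=
    continuous_const.sub (continuous_gzero P₂)
  have h1 : 0 < ∫ t in (0 : ℝ)..(2 * Real.pi),
      ((Real.log (k₂ / 2) - Real.log ‖1 + sq (zz ρ k₂ t)‖) -
        (Real.log (k₁ / 2) - Real.log ‖1 + sq (zz ρ k₁ t)‖)) := by
    refine intervalIntegral.intervalIntegral_pos_of_pos_on ?_ (fun t _ => ?_) Real.two_pi_pos
    · exact (c₂.sub c₁).intervalIntegrable _ _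
    · exact sub_pos.2 (gzero_lt P₁ P₂ h0 h t)
  rw [intervalIntegral.integral_sub (c₂.intervalIntegrable _ _) (c₁.intervalIntegrable _ _)] at h1
  rw [Rzero_eq P₁ h0, Rzero_eq P₂ (h0.trans h)]
  exact sub_pos.1 h1

lemma Rzero_neg' : Rzero ρ (-k) = Rzero ρ k := by
  unfold Rzero
  rw [abs_neg]
  simp only [zz_neg, sq_neg]

lemma Rzero_abs : Rzero ρ |k| = Rzero ρ k := by
  rcases abs_choice k with h | h
  · rw [h]
  · rw [h, Rzero_neg']

lemma Rzero_le (P : Par ρ k) : Rzero ρ k ≤ 2 * Real.pi * Real.log (|k| / 2) := by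
  unfold Rzero
  have h1 : 0 ≤ ∫ t in (0 : ℝ)..(2 * Real.pi), Real.log ‖1 + sq (zz ρ k t)‖ := by
    refine intervalIntegral.integral_nonneg Real.two_pi_pos.le fun t _ => ?_
    exact Real.log_nonneg (one_lt_norm (norm_zz P t)).le
  linarith

lemma Rzero_lt_zero (P : Par ρ k) (hk : k ≠ 0) (hk1 : |k| < 2) : Rzero ρ k < 0 := by
  have h1 := Rzero_le P
  have h2 : Real.log (|k| / 2) < 0 := by
    apply Real.log_neg
    · have := abs_pos.2 hk
      positivity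
    · linarith
  have := Real.two_pi_pos
  nlinarith

/-- the determinant for two parameters in the unit disc does not vanish -/
theorem det_ne (P₁ : Par ρ k₁) (P₂ : Par ρ k₂) (h1 : k₁ ≠ 0) (h2 : k₂ ≠ 0) (hk1 : |k₁| < 2)
    (hk2 : |k₂| < 2) (h : |k₁| < |k₂|) :
    Rinf ρ k₁ * Rzero ρ k₂ - Rzero ρ k₁ * Rinf ρ k₂ ≠ 0 := by
  intro h0
  have e1 : |Rinf ρ k₁| * |Rzero ρ k₂| = |Rzero ρ k₁| * |Rinf ρ k₂| := by
    rw [← abs_mul, ← abs_mul]
    congr 1
    linarith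
  have a1 : |Rinf ρ k₁| < |Rinf ρ k₂| := by
    rw [abs_Rinf P₁, abs_Rinf P₂]
    exact Rinf_lt P₁.abs P₂.abs h
  have a2 : |Rzero ρ k₂| < |Rzero ρ k₁| := by
    rw [abs_of_neg (Rzero_lt_zero P₂ h2 hk2), abs_of_neg (Rzero_lt_zero P₁ h1 hk1)]
    have := Rzero_lt P₁.abs P₂.abs (abs_pos.2 h1) h
    rw [Rzero_abs, Rzero_abs] at this
    linarith
  have a3 : 0 ≤ |Rinf ρ k₁| := abs_nonneg _
  have a4 : 0 < |Rzero ρ k₂| := abs_pos.2 (Rzero_lt_zero P₂ h2 hk2).ne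
  nlinarith

/-- the determinant for two different parameters in the unit disc does not vanish -/
theorem det_ne_all (P₁ : Par ρ k₁) (P₂ : Par ρ k₂) (h1 : k₁ ≠ 0) (h2 : k₂ ≠ 0) (hk1 : |k₁| < 2)
    (hk2 : |k₂| < 2) (h : k₁ ≠ k₂) :
    Rinf ρ k₁ * Rzero ρ k₂ - Rzero ρ k₁ * Rinf ρ k₂ ≠ 0 := by
  rcases lt_trichotomy |k₁| |k₂| with h3 | h3 | h3
  · exact det_ne P₁ P₂ h1 h2 hk1 hk2 h3
  · have h4 : k₂ = -k₁ := by
      rcases abs_eq_abs.1 h3 with h5 | h5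
      · exact absurd h5 h
      · rw [h5, neg_neg]
    rw [h4, Rzero_neg', Rinf_neg P₁]
    have h5 : Rinf ρ k₁ ≠ 0 := by
      rw [← abs_pos, abs_Rinf P₁]
      exact Rinf_pos P₁.abs (abs_pos.2 h1)
    have h6 := (Rzero_lt_zero P₁ h1 hk1).ne
    have e : Rinf ρ k₁ * Rzero ρ k₁ - Rzero ρ k₁ * -Rinf ρ k₁ = 2 * (Rinf ρ k₁ * Rzero ρ k₁) := by
      ring
    rw [e]
    exact mul_ne_zero two_ne_zero (mul_ne_zero h5 h6)
  · intro h4
    exact det_ne P₂ P₁ h2 h1 hk2 hk1 h3 (by linear_combination -h4)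

end Pool.Agent.Helper12.RQ
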