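import Mathlib
import Pool.Agent.Helper12.RQ.Mono
import Pool.Agent.Helper12.RQ.Cat

/-!
Moving the loops to the unit circle, and the comparison of the two regulator integrals.
-/

namespace Pool.Agent.Helper12.RQ

open Complex Pool.Agent.Helper11 Metric

variable {ρ k : ℝ}

/-- contour shift -/
lemma shift {f : ℂ → ℂ} (h : 0 < ρ) (h1 : ρ < 1) (hc : ContinuousOn f (closedBall 0 1 \ ball 0 ρ))
    (hd : ∀ z ∈ (ball (0 : ℂ) 1 \ closedBall 0 ρ), DifferentiableAt ℂ f z) :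
    ∫ t in (0 : ℝ)..(2 * Real.pi), f (YY ρ t) = ∫ t in (0 : ℝ)..(2 * Real.pi), f (YY 1 t) := by
  have h2 := circleIntegral_sub_center_inv_smul_eq_of_differentiable_on_annulus_off_countable h
    h1.le (Set.countable_empty) hc (fun z hz => hd z hz.1)
  have h3 := Real.circleAverage_eq_circleIntegral (R := ρ) (c := 0) (f := f) h.ne'
  have h4 := Real.circleAverage_eq_circleIntegral (R := 1) (c := 0) (f := f) one_ne_zero
  rw [h2, ← h3] at h4
  unfold Real.circleAverage at h4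
  have h5 : (2 * Real.pi)⁻¹ ≠ 0 := by positivity
  exact (smul_right_injective ℂ h5 h4).symm

/-- `k (Y - 1/Y) / 2` -/
noncomputable def Zk (k : ℝ) (z : ℂ) : ℂ := ((k / 2 : ℝ) : ℂ) * (z - z⁻¹)

lemma norm_Zk (P : Par ρ k) {z : ℂ} (h1 : ρ ≤ ‖z‖) (h2 : ‖z‖ ≤ 1) : ‖Zk k z‖ < 1 := by
  have hz : 0 < ‖z‖ := P.pos.trans_le h1
  have h3 : ‖z - z⁻¹‖ ≤ ρ + ρ⁻¹ := by
    refine (norm_sub_le _ _).trans ?_
    rw [norm_inv]
    have h4 : (ρ + ρ⁻¹) - (‖z‖ + ‖z‖⁻¹) = (‖z‖ - ρ) * ((‖z‖ * ρ)⁻¹ - 1) := by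
      have := P.pos.ne'
      have := hz.ne'
      field_simp
      ring
    have h5 : 1 ≤ (‖z‖ * ρ)⁻¹ := by
      rw [one_le_inv₀ (mul_pos hz P.pos)]
      have := P.lt
      nlinarith [P.pos]
    have h6 : 0 ≤ (‖z‖ - ρ) * ((‖z‖ * ρ)⁻¹ - 1) := mul_nonneg (by linarith) (by linarith)
    linarith
  unfold Zk
  rw [norm_mul, norm_real, Real.norm_eq_abs, abs_div, abs_of_pos (by norm_num : (0 : ℝ) < 2)]
  have h4 : |k| / 2 * ‖z - z⁻¹‖ ≤ |k| / 2 * (ρ + ρ⁻¹) := by gcongr
  have h5 := P.bd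
  linarith

lemma Zk_diff {z : ℂ} (hz : z ≠ 0) : DifferentiableAt ℂ (Zk k) z :=
  (differentiableAt_id.sub (differentiableAt_inv hz)).const_mul _

lemma Zk_YY (t : ℝ) : Zk k (YY ρ t) = zz ρ k t := rfl

lemma mem_ann {z : ℂ} (hz : z ∈ closedBall (0 : ℂ) 1 \ ball 0 ρ) : ρ ≤ ‖z‖ ∧ ‖z‖ ≤ 1 := by
  have h1 := hz.1
  have h2 := hz.2
  rw [mem_closedBall_zero_iff] at h1
  rw [mem_ball_zero_iff, not_lt] at h2
  exact ⟨h2, h1⟩

lemma mem_ann' {z : ℂ} (hz : z ∈ ball (0 : ℂ) 1 \ closedBall 0 ρ) : ρ < ‖z‖ ∧ ‖z‖ < 1 := by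
  have h1 := hz.1
  have h2 := hz.2
  rw [mem_ball_zero_iff] at h1
  rw [mem_closedBall_zero_iff, not_le] at h2
  exact ⟨h2, h1⟩

lemma shift_comp {g : ℂ → ℂ} (P : Par ρ k) (hc : ContinuousOn g (ball 0 1))
    (hd : ∀ z, ‖z‖ < 1 → z ≠ 0 → DifferentiableAt ℂ g z) (hk : k ≠ 0) :
    ∫ t in (0 : ℝ)..(2 * Real.pi), g (zz ρ k t) =
      ∫ t in (0 : ℝ)..(2 * Real.pi), g (Zk k (YY 1 t)) := by
  refine shift (f := fun z => g (Zk k z)) P.pos P.lt ?_ ?_
  · refine hc.comp (fun z hz => ?_) fun z hz => ?_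
    · obtain ⟨h1, h2⟩ := mem_ann hz
      have hz0 : z ≠ 0 := norm_pos_iff.1 (P.pos.trans_le h1)
      exact (Zk_diff hz0).continuousAt.continuousWithinAt
    · obtain ⟨h1, h2⟩ := mem_ann hz
      rw [mem_ball_zero_iff]
      exact norm_Zk P h1 h2
  · intro z hz
    obtain ⟨h1, h2⟩ := mem_ann' hz
    have hz0 : z ≠ 0 := norm_pos_iff.1 (P.pos.trans h1)
    have h3 : Zk k z ≠ 0 := by
      unfold Zk
      refine mul_ne_zero (ofReal_ne_zero.2 (div_ne_zero hk (by norm_num))) fun h0 => ?_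
      apply one_sub_sq_ne h2
      field_simp at h0
      linear_combination -h0
    exact (hd _ (norm_Zk P h1.le h2.le) h3).comp z (Zk_diff hz0)

/-! ### values on the imaginary axis -/

lemma norm_I_mul {s : ℝ} (hs : |s| < 1) : ‖I * (s : ℂ)‖ < 1 := by
  rw [norm_mul, norm_I, one_mul, norm_real, Real.norm_eq_abs]
  exact hs

lemma ash_I {s : ℝ} (hs : |s| < 1) : ash (I * (s : ℂ)) = I * (Real.arcsin s : ℂ) := by
  have h1 := abs_lt.1 hs
  have hz := norm_I_mul hs
  have hc0 : 0 < Real.sqrt (1 - s ^ 2) := by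
    apply Real.sqrt_pos.2
    nlinarith
  have h2 : sq (I * (s : ℂ)) = (Real.sqrt (1 - s ^ 2) : ℂ) := by
    have h3 : (sq (I * (s : ℂ)) - (Real.sqrt (1 - s ^ 2) : ℂ)) *
        (sq (I * (s : ℂ)) + (Real.sqrt (1 - s ^ 2) : ℂ)) = 0 := by
      have h4 := sq_sq hz
      have h5 : ((Real.sqrt (1 - s ^ 2) : ℝ) : ℂ) ^ 2 = 1 - (s : ℂ) ^ 2 := by
        rw [← ofReal_pow, Real.sq_sqrt (by nlinarith)]
        push_cast
        ring
      have h6 := I_sq
      linear_combination h4 - h5 + (s : ℂ) ^ 2 * h6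
    have h4 : sq (I * (s : ℂ)) + (Real.sqrt (1 - s ^ 2) : ℂ) ≠ 0 := by
      intro h0
      have h5 := congrArg Complex.re h0
      rw [add_re, ofReal_re, zero_re] at h5
      have := sq_re_pos hz
      linarith
    exact sub_eq_zero.1 ((mul_eq_zero.1 h3).resolve_right h4)
  have h3 : sq (I * (s : ℂ)) + I * (s : ℂ) = exp (I * (Real.arcsin s : ℂ)) := by
    rw [h2, mul_comm I (Real.arcsin s : ℂ), exp_mul_I, ← ofReal_cos, ← ofReal_sin,
      Real.cos_arcsin, Real.sin_arcsin (by linarith) (by linarith)]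
    ring
  unfold ash
  rw [h3, log_exp]
  · have := Real.neg_pi_div_two_le_arcsin s
    have := Real.pi_pos
    simp
    linarith
  · have := Real.arcsin_le_pi_div_two s
    have := Real.pi_pos
    simp
    linarith

lemma sq_I {s : ℝ} (hs : |s| < 1) : sq (I * (s : ℂ)) = (Real.sqrt (1 - s ^ 2) : ℂ) := by
  have h1 := abs_lt.1 hs
  have hz := norm_I_mul hs
  have h2 := exp_ash hz
  rw [ash_I hs, mul_comm I (Real.arcsin s : ℂ), exp_mul_I, ← ofReal_cos, ← ofReal_sin,
      Real.cos_arcsin, Real.sin_arcsin (by linarith) (by linarith)] at h2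
  linear_combination -h2

lemma YY_one (t : ℝ) : YY 1 t = (Real.cos t : ℂ) + (Real.sin t : ℂ) * I := by
  unfold YY
  rw [circleMap_zero, ofReal_one, one_mul, exp_mul_I, ← ofReal_cos, ← ofReal_sin]

lemma YY_one_inv (t : ℝ) : (YY 1 t)⁻¹ = (Real.cos t : ℂ) - (Real.sin t : ℂ) * I := by
  symm
  apply eq_inv_of_mul_eq_one_left
  rw [YY_one]
  have h := Real.sin_sq_add_cos_sq t
  have h' : (Real.sin t : ℂ) ^ 2 + (Real.cos t : ℂ) ^ 2 = 1 := by exact_mod_cast h
  have h6 := I_sq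
  linear_combination h' - (Real.sin t : ℂ) ^ 2 * h6

lemma Zk_one (t : ℝ) : Zk k (YY 1 t) = I * ((k * Real.sin t : ℝ) : ℂ) := by
  unfold Zk
  rw [YY_one_inv, YY_one]
  push_cast
  ring

lemma abs_lt_one (hk : |k| < 1) (t : ℝ) : |k * Real.sin t| < 1 := by
  rw [abs_mul]
  have h1 := Real.abs_sin_le_one t
  have h2 := abs_nonneg k
  have h3 := abs_nonneg (Real.sin t)
  nlinarith

/-! ### symmetry -/

lemma quarter {G : ℝ → ℝ} (hG : ∀ s, G (-s) = G s) (hc : Continuous fun t => G (Real.sin t)) :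
    ∫ t in (0 : ℝ)..(2 * Real.pi), G (Real.sin t) =
      4 * ∫ t in (0 : ℝ)..(Real.pi / 2), G (Real.sin t) := by
  have hi : ∀ a b, IntervalIntegrable (fun t => G (Real.sin t)) MeasureTheory.volume a b :=
    fun a b => hc.intervalIntegrable a b
  have h1 : ∫ t in (0 : ℝ)..(2 * Real.pi), G (Real.sin t) =
      (∫ t in (0 : ℝ)..Real.pi, G (Real.sin t)) + ∫ t in Real.pi..(2 * Real.pi), G (Real.sin t) :=
    (intervalIntegral.integral_add_adjacent_intervals (hi _ _) (hi _ _)).symm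
  have h2 : ∫ t in (0 : ℝ)..Real.pi, G (Real.sin t) =
      (∫ t in (0 : ℝ)..(Real.pi / 2), G (Real.sin t)) +
        ∫ t in (Real.pi / 2)..Real.pi, G (Real.sin t) :=
    (intervalIntegral.integral_add_adjacent_intervals (hi _ _) (hi _ _)).symm
  have h3 : ∫ t in Real.pi..(2 * Real.pi), G (Real.sin t) =
      ∫ t in (0 : ℝ)..Real.pi, G (Real.sin t) := by
    have e := intervalIntegral.integral_comp_add_right (a := 0) (b := Real.pi)
      (fun t => G (Real.sin t)) Real.pi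
    rw [zero_add, ← two_mul] at e
    rw [← e]
    refine intervalIntegral.integral_congr fun t _ => ?_
    simp only [Real.sin_add_pi, hG]
  have h4 : ∫ t in (Real.pi / 2)..Real.pi, G (Real.sin t) =
      ∫ t in (0 : ℝ)..(Real.pi / 2), G (Real.sin t) := by
    have e := intervalIntegral.integral_comp_sub_left (a := 0) (b := Real.pi / 2)
      (fun t => G (Real.sin t)) Real.pi
    rw [sub_zero] at e
    have e2 : Real.pi - Real.pi / 2 = Real.pi / 2 := by ring
    rw [e2] at e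
    rw [← e]
    refine intervalIntegral.integral_congr fun t _ => ?_
    simp only [Real.sin_pi_sub]
  rw [h1, h3, h2, h4]
  ring

/-! ### the first integral -/

lemma dslope_ash {z : ℂ} (hz : z ≠ 0) : dslope ash 0 z = ash z / z := by
  rw [dslope_of_ne _ hz, slope_def_field, ash_zero, sub_zero, sub_zero]

lemma continuousOn_dslope_ash : ContinuousOn (dslope ash 0) (ball 0 1) := by
  rw [continuousOn_dslope (ball_mem_nhds (0 : ℂ) one_pos)]
  refine ⟨fun z hz => ?_, ?_⟩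
  · rw [mem_ball_zero_iff] at hz
    exact (hasDerivAt_ash hz).continuousAt.continuousWithinAt
  · exact (hasDerivAt_ash (z := 0) (by simp)).differentiableAt

/-- the integrand on the unit circle as a function of `sin t` -/
noncomputable def G1 (k s : ℝ) : ℝ := ((k : ℂ) * dslope ash 0 (I * ((k * s : ℝ) : ℂ))).re

lemma G1_of_ne (hk : k ≠ 0) {s : ℝ} (hs : s ≠ 0) (h : |k * s| < 1) :
    G1 k s = Real.arcsin (k * s) / s := by
  unfold G1
  have h1 : I * ((k * s : ℝ) : ℂ) ≠ 0 :=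
    mul_ne_zero I_ne_zero (ofReal_ne_zero.2 (mul_ne_zero hk hs))
  rw [dslope_ash h1, ash_I h]
  have h2 : (k : ℂ) * (I * (Real.arcsin (k * s) : ℂ) / (I * ((k * s : ℝ) : ℂ))) =
      ((Real.arcsin (k * s) / s : ℝ) : ℂ) := by
    have h3 := I_ne_zero
    have h4 : (k : ℂ) ≠ 0 := ofReal_ne_zero.2 hk
    have h5 : (s : ℂ) ≠ 0 := ofReal_ne_zero.2 hs
    push_cast
    field_simp
  rw [h2, ofReal_re]

lemma G1_neg' (hk1 : |k| < 1) (t : ℝ) : G1 k (-Real.sin t) = G1 k (Real.sin t) := by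
  unfold G1
  congr 2
  by_cases h0 : I * ((k * Real.sin t : ℝ) : ℂ) = 0
  · have h1 : I * ((k * -Real.sin t : ℝ) : ℂ) = 0 := by
      have : I * ((k * -Real.sin t : ℝ) : ℂ) = -(I * ((k * Real.sin t : ℝ) : ℂ)) := by
        push_cast
        ring
      rw [this, h0, neg_zero]
    rw [h0, h1]
  · have h1 : I * ((k * -Real.sin t : ℝ) : ℂ) = -(I * ((k * Real.sin t : ℝ) : ℂ)) := by
      push_cast
      ring
    rw [h1, dslope_ash h0, dslope_ash (neg_ne_zero.2 h0),
      ash_neg (norm_I_mul (abs_lt_one hk1 t))]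
    rw [neg_div_neg_eq]

theorem Rinf_shift (P : Par ρ k) (hk : k ≠ 0) :
    Rinf ρ k = ∫ t in (0 : ℝ)..(2 * Real.pi), G1 k (Real.sin t) := by
  have h1 := shift_comp P (g := fun z => (k : ℂ) * dslope ash 0 z)
    (continuousOn_const.mul continuousOn_dslope_ash) (fun z hz hz0 => by
      refine (DifferentiableAt.const_mul ?_ _)
      rw [differentiableAt_dslope_of_ne hz0]
      exact (hasDerivAt_ash hz).differentiableAt) hk
  have h2 := congrArg Complex.re h1
  have c1 : Continuous fun t => (k : ℂ) * dslope ash 0 (zz ρ k t) := by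
    refine continuous_const.mul ?_
    exact continuousOn_dslope_ash.comp_continuous (zz_contDiff P).continuous fun t => by
      rw [mem_ball_zero_iff]
      exact norm_zz P t
  have hY1 : ∀ t, ‖Zk k (YY 1 t)‖ < 1 := fun t => by
    have h3 : ‖YY 1 t‖ = 1 := norm_YY one_pos t
    refine norm_Zk P ?_ ?_
    · rw [h3]
      exact P.lt.le
    · rw [h3]
  have c3 : Continuous fun t => Zk k (YY 1 t) := by
    unfold Zk
    exact continuous_const.mul (((YY_contDiff 1).continuous).sub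
      (((YY_contDiff 1).continuous).inv₀ (YY_ne one_pos)))
  have c2 : Continuous fun t => (k : ℂ) * dslope ash 0 (Zk k (YY 1 t)) := by
    refine continuous_const.mul ?_
    exact continuousOn_dslope_ash.comp_continuous c3 fun t => by
      rw [mem_ball_zero_iff]
      exact hY1 t
  rw [re_integral c1, re_integral c2] at h2
  have e1 : Rinf ρ k = ∫ t in (0 : ℝ)..(2 * Real.pi), ((k : ℂ) * dslope ash 0 (zz ρ k t)).re := by
    unfold Rinf
    refine intervalIntegral.integral_congr fun t _ => ?_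
    have h4 := ze_ne P.pos P.lt t
    have hk' : (k : ℂ) ≠ 0 := ofReal_ne_zero.2 hk
    have h5 : zz ρ k t ≠ 0 := by
      unfold zz
      exact mul_ne_zero (ofReal_ne_zero.2 (div_ne_zero hk (by norm_num))) h4
    rw [dslope_ash h5]
    congr 1
    unfold zz
    push_cast
    field_simp
  rw [e1, h2]
  refine intervalIntegral.integral_congr fun t _ => ?_
  rw [Zk_one]
  rfl

end Pool.Agent.Helper12.RQ
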