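import Mathlib
import Pool.Agent.Helper12.RQ.Shift

/-!
The comparison `R_∞(k) < -R_0(k)` for `0 < k < 1`.
-/

namespace Pool.Agent.Helper12.RQ

open Complex Pool.Agent.Helper11 Metric

variable {ρ k : ℝ}

/-- the integrand on the unit circle as a function of `sin t` -/
noncomputable def G2 (k s : ℝ) : ℝ := Real.log ‖1 + sq (I * ((k * s : ℝ) : ℂ))‖

lemma G2_neg (k s : ℝ) : G2 k (-s) = G2 k s := by
  unfold G2
  have : I * ((k * -s : ℝ) : ℂ) = -(I * ((k * s : ℝ) : ℂ)) := by
    push_cast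
    ring
  rw [this, sq_neg]

lemma G2_eq {s : ℝ} (h : |k * s| < 1) : G2 k s = Real.log (1 + Real.sqrt (1 - (k * s) ^ 2)) := by
  unfold G2
  rw [sq_I h]
  have h1 : (1 : ℂ) + (Real.sqrt (1 - (k * s) ^ 2) : ℂ) =
      ((1 + Real.sqrt (1 - (k * s) ^ 2) : ℝ) : ℂ) := by
    push_cast
    ring
  rw [h1, norm_real, Real.norm_eq_abs, abs_of_pos]
  have := Real.sqrt_nonneg (1 - (k * s) ^ 2)
  linarith

lemma norm_Zk_one (P : Par ρ k) (t : ℝ) : ‖Zk k (YY 1 t)‖ < 1 := by
  have h3 : ‖YY 1 t‖ = 1 := norm_YY one_pos t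
  refine norm_Zk P ?_ ?_
  · rw [h3]
    exact P.lt.le
  · rw [h3]

lemma continuous_Zk_one : Continuous fun t => Zk k (YY 1 t) := by
  unfold Zk
  exact continuous_const.mul (((YY_contDiff 1).continuous).sub
    (((YY_contDiff 1).continuous).inv₀ (YY_ne one_pos)))

theorem Rzero_shift (P : Par ρ k) (hk : k ≠ 0) :
    Rzero ρ k = 2 * Real.pi * Real.log (|k| / 2) -
      ∫ t in (0 : ℝ)..(2 * Real.pi), G2 k (Real.sin t) := by
  have hcd : ∀ z : ℂ, ‖z‖ < 1 → DifferentiableAt ℂ (fun z => log (1 + sq z)) z := fun z hz =>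
    ((hasDerivAt_sq hz).differentiableAt.const_add 1).clog (one_add_sq_slit hz)
  have hc : ContinuousOn (fun z => log (1 + sq z)) (ball (0 : ℂ) 1) := fun z hz => by
    rw [mem_ball_zero_iff] at hz
    exact (hcd z hz).continuousAt.continuousWithinAt
  have h1 := shift_comp P hc (fun z hz _ => hcd z hz) hk
  have h2 := congrArg Complex.re h1
  have c1 : Continuous fun t => log (1 + sq (zz ρ k t)) :=
    hc.comp_continuous (zz_contDiff P).continuous fun t => by
      rw [mem_ball_zero_iff]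
      exact norm_zz P t
  have c2 : Continuous fun t => log (1 + sq (Zk k (YY 1 t))) :=
    hc.comp_continuous continuous_Zk_one fun t => by
      rw [mem_ball_zero_iff]
      exact norm_Zk_one P t
  rw [re_integral c1, re_integral c2] at h2
  simp only [log_re] at h2
  unfold Rzero
  rw [h2]
  congr 1
  refine intervalIntegral.integral_congr fun t _ => ?_
  rw [Zk_one]
  rfl

lemma continuous_G1 (P : Par ρ k) : Continuous fun t => G1 k (Real.sin t) := by
  have h : (fun t => G1 k (Real.sin t)) = fun t => ((k : ℂ) * dslope ash 0 (Zk k (YY 1 t))).re := by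
    funext t
    rw [Zk_one]
    rfl
  rw [h]
  refine Complex.continuous_re.comp (continuous_const.mul ?_)
  exact continuousOn_dslope_ash.comp_continuous continuous_Zk_one fun t => by
    rw [mem_ball_zero_iff]
    exact norm_Zk_one P t

lemma continuous_G2 (P : Par ρ k) : Continuous fun t => G2 k (Real.sin t) := by
  have h : (fun t => G2 k (Real.sin t)) = fun t => Real.log ‖1 + sq (Zk k (YY 1 t))‖ := by
    funext t
    rw [Zk_one]
    rfl
  rw [h]
  have hc : ContinuousOn (fun z => 1 + sq z) (ball (0 : ℂ) 1) := fun z hz => by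
    rw [mem_ball_zero_iff] at hz
    exact ((hasDerivAt_sq hz).continuousAt.const_add 1).continuousWithinAt
  have h1 : Continuous fun t => 1 + sq (Zk k (YY 1 t)) :=
    hc.comp_continuous continuous_Zk_one fun t => by
      rw [mem_ball_zero_iff]
      exact norm_Zk_one P t
  exact h1.norm.log fun t => norm_ne_zero_iff.2 (one_add_sq_ne (norm_Zk_one P t))

lemma G1_even (hk1 : |k| < 1) : ∀ t, G1 k (-Real.sin t) = G1 k (Real.sin t) := G1_neg' hk1

/-- a version of `quarter` for functions even on `[-1, 1]` -/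
lemma quarter' {G : ℝ → ℝ} (hG : ∀ t, G (-Real.sin t) = G (Real.sin t))
    (hc : Continuous fun t => G (Real.sin t)) :
    ∫ t in (0 : ℝ)..(2 * Real.pi), G (Real.sin t) =
      4 * ∫ t in (0 : ℝ)..(Real.pi / 2), G (Real.sin t) := by
  have h1 : ∀ t, G |Real.sin t| = G (Real.sin t) := by
    intro t
    rcases abs_choice (Real.sin t) with h | h
    · rw [h]
    · rw [h, hG]
  have h2 := quarter (G := fun s => G |s|) (fun s => by simp only [abs_neg]) (by simpa only [h1])
  simpa only [h1] using h2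

theorem Rinf_le (P : Par ρ k) (hk : 0 < k) (hk1 : k < 1) :
    Rinf ρ k ≤ 4 * ((∫ t in (0 : ℝ)..(Real.pi / 2), Real.log (1 + Real.cos t)) +
      Real.log 2 * Real.pi / 2) := by
  have habs : |k| < 1 := by rwa [abs_of_pos hk]
  rw [Rinf_shift P hk.ne', quarter' (G1_even habs) (continuous_G1 P), ← int_sinc_inv]
  have hpi := Real.pi_pos
  refine mul_le_mul_of_nonneg_left ?_ (by norm_num)
  refine intervalIntegral.integral_mono_on_of_le_Ioo (by positivity)
    ((continuous_G1 P).intervalIntegrable _ _) intInt_sinc fun t ht => ?_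
  have hs : 0 < Real.sin t := Real.sin_pos_of_pos_of_lt_pi ht.1 (by linarith [ht.2])
  rw [G1_of_ne hk.ne' hs.ne' (abs_lt_one habs t), Real.sinc_of_ne_zero ht.1.ne', inv_div]
  refine div_le_div_of_nonneg_right ?_ hs.le
  have h1 : Real.arcsin (k * Real.sin t) ≤ Real.arcsin (Real.sin t) :=
    Real.monotone_arcsin (by nlinarith)
  rwa [Real.arcsin_sin (by linarith [ht.1]) ht.2.le] at h1

theorem le_neg_Rzero (P : Par ρ k) (hk : 0 < k) (hk1 : k < 1) :
    4 * ((∫ t in (0 : ℝ)..(Real.pi / 2), Real.log (1 + Real.cos t)) +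
      Real.log 2 * Real.pi / 2) < -Rzero ρ k := by
  have habs : |k| < 1 := by rwa [abs_of_pos hk]
  rw [Rzero_shift P hk.ne', quarter (G2_neg k) (continuous_G2 P), abs_of_pos hk]
  have hpi := Real.pi_pos
  have h1 : (∫ t in (0 : ℝ)..(Real.pi / 2), Real.log (1 + Real.cos t)) ≤
      ∫ t in (0 : ℝ)..(Real.pi / 2), G2 k (Real.sin t) := by
    refine intervalIntegral.integral_mono_on_of_le_Ioo (by positivity) intInt_log
      ((continuous_G2 P).intervalIntegrable _ _) fun t ht => ?_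
    rw [G2_eq (abs_lt_one habs t)]
    have hc : 0 ≤ Real.cos t := Real.cos_nonneg_of_mem_Icc ⟨by linarith [ht.1], ht.2.le⟩
    refine Real.log_le_log (by linarith) ?_
    have h2 : Real.cos t ≤ Real.sqrt (1 - (k * Real.sin t) ^ 2) := by
      apply Real.le_sqrt_of_sq_le
      have h3 := Real.sin_sq_add_cos_sq t
      have h4 : (k * Real.sin t) ^ 2 ≤ Real.sin t ^ 2 := by
        rw [mul_pow]
        have : k ^ 2 ≤ 1 := by nlinarith
        have := sq_nonneg (Real.sin t)
        nlinarith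
      linarith
    linarith
  have h2 : Real.log (k / 2) < -Real.log 2 := by
    rw [Real.log_div hk.ne' (by norm_num)]
    have := Real.log_neg hk hk1
    linarith
  nlinarith

/-- the comparison -/
theorem abs_Rinf_lt (P : Par ρ k) (hk : k ≠ 0) (hk1 : |k| < 1) : |Rinf ρ k| < |Rzero ρ k| := by
  have hk0 := abs_pos.2 hk
  rw [abs_Rinf P, abs_of_neg (Rzero_lt_zero P hk (by linarith)), ← Rzero_abs]
  exact (Rinf_le P.abs hk0 hk1).trans_lt (le_neg_Rzero P.abs hk0 hk1)

/-- the determinant in the mixed case -/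
theorem det_ne' {k₁ k₂ : ℝ} (P₁ : Par ρ k₁) (P₂ : Par ρ k₂) (h1 : k₁ ≠ 0) (h2 : k₂ ≠ 0)
    (hk1 : |k₁| < 1) (hk2 : |k₂| < 1) :
    Rinf ρ k₁ * Rinf ρ k₂ - Rzero ρ k₁ * Rzero ρ k₂ ≠ 0 := by
  intro h0
  have e1 : |Rinf ρ k₁| * |Rinf ρ k₂| = |Rzero ρ k₁| * |Rzero ρ k₂| := by
    rw [← abs_mul, ← abs_mul]
    congr 1
    linarith
  have a1 := abs_Rinf_lt P₁ h1 hk1
  have a2 := abs_Rinf_lt P₂ h2 hk2
  have a3 : 0 ≤ |Rinf ρ k₁| := abs_nonneg _
  have a4 : 0 ≤ |Rinf ρ k₂| := abs_nonneg _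
  nlinarith

end Pool.Agent.Helper12.RQ
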