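import Mathlib
import Pool.Agent.Helper11.LinAlg
import Pool.Agent.Helper12.RQ.Hom
import Pool.Agent.Helper12.RQ.Shift2
import Pool.Agent.Helper12.RQ.Unr

/-!
The regulator at a real place.
-/

namespace Pool.Agent.Helper12.RQ

open Complex Pool.Agent.Helper11

section alg

variable {F : Type*} [Field F] {L : Type*} [Field L] [Algebra F L]

lemma isAlgebraic_of_sub_inv (h2 : (2 : L) ≠ 0) {a : L} (ha : a ≠ 0)
    (h : IsAlgebraic F (a - a⁻¹)) : IsAlgebraic F a := by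
  have h4 : IsAlgebraic F ((4 : ℕ) : L) := isAlgebraic_natCast 4
  have h3 : IsAlgebraic F ((a + a⁻¹) ^ 2) := by
    have e : (a + a⁻¹) ^ 2 = (a - a⁻¹) ^ 2 + ((4 : ℕ) : L) := by
      push_cast
      field_simp
      ring
    rw [e]
    exact (h.pow 2).add h4
  have h5 : IsAlgebraic F (a + a⁻¹) := IsAlgebraic.of_pow (by norm_num) h3
  have h6 : IsAlgebraic F (((a - a⁻¹) + (a + a⁻¹)) * ((2 : ℕ) : L)⁻¹) :=
    (h.add h5).mul (isAlgebraic_natCast 2).inv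
  have e : ((a - a⁻¹) + (a + a⁻¹)) * ((2 : ℕ) : L)⁻¹ = a := by
    push_cast
    field_simp
    ring
  rwa [e] at h6

lemma transc_of_curve (h2 : (2 : L) ≠ 0) {a b : L} {k : F} (ha : Transcendental F a)
    (h : a - a⁻¹ + algebraMap F L k * (b - b⁻¹) = 0) : Transcendental F b := by
  intro hb
  apply ha
  have ha0 : a ≠ 0 := by
    rintro rfl
    exact ha isAlgebraic_zero
  apply isAlgebraic_of_sub_inv h2 ha0
  have e : a - a⁻¹ = -(algebraMap F L k * (b - b⁻¹)) := by linear_combination h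
  rw [e]
  exact ((isAlgebraic_algebraMap k).mul (hb.sub hb.inv)).neg

end alg

section core

variable {F : Type*} [Field F] [Algebra ℚ F] [Algebra.IsAlgebraic ℚ F] [Algebra F ℂ]
  {K : Type*} [Field K] [Algebra F K] {ρ kr : ℝ} {k : F}

omit [Algebra ℚ F] [Algebra.IsAlgebraic ℚ F] [Algebra F ℂ] in
/-- complex numbers of transcendental absolute value are transcendental -/
lemma not_alg_norm {z : ℂ} {r : ℝ} (hr : Transcendental ℚ r) (hz : ‖z‖ = r) :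
    ¬ IsAlgebraic ℚ z := by
  intro h
  apply hr
  have h1 : IsAlgebraic ℚ ((starRingEnd ℂ) z) := by
    have h2 := h.algHom (Complex.conjAe.toAlgHom.restrictScalars ℚ)
    exact h2
  have h3 : IsAlgebraic ℚ (((r ^ 2 : ℝ)) : ℂ) := by
    have h4 := h.mul h1
    rw [Complex.mul_conj, Complex.normSq_eq_norm_sq, hz] at h4
    exact h4
  have h5 : IsAlgebraic ℚ (r ^ 2 : ℝ) := by
    have h6 : IsAlgebraic ℚ (algebraMap ℝ ℂ (r ^ 2 : ℝ)) := h3
    exact (isAlgebraic_algebraMap_iff (algebraMap ℝ ℂ).injective).1 h6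
  exact IsAlgebraic.of_pow (by norm_num : 0 < 2) h5

lemma transc_YY (hρ : Transcendental ℚ ρ) (h0 : 0 < ρ) (t : ℝ) : Transcendental F (YY ρ t) := by
  intro h
  have : IsScalarTower ℚ F ℂ := IsScalarTower.of_algebraMap_eq' (RingHom.ext_rat _ _)
  have h1 : IsAlgebraic ℚ (YY ρ t) := h.restrictScalars ℚ
  exact not_alg_norm hρ (norm_YY h0 t) h1

lemma val_eq {K : Type*} [Field K] (γ : K →+* LoopRing) {a b c : K} {f g h : ℝ → ℂ}
    (hab : a * b = c) (hb : (γ b : ℝ → ℂ) = g) (hc : (γ c : ℝ → ℂ) = h) (hg : ∀ t, g t ≠ 0)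
    (hf : ∀ t, f t = h t / g t) : (γ a : ℝ → ℂ) = f := by
  have h1 := congrArg (fun z => (γ z : ℝ → ℂ)) hab
  simp only [map_mul, Subring.coe_mul] at h1
  funext t
  have h2 := congrFun h1 t
  rw [Pi.mul_apply, hb, hc] at h2
  rw [hf, eq_div_iff (hg t)]
  exact h2

/-- the core statement -/
theorem core (hP : Par ρ kr) (hρ : Transcendental ℚ ρ) (hk : algebraMap F ℂ k = (kr : ℂ))
    (hk0 : k ≠ 0) (hk1 : k ^ 2 ≠ 1) {a b y X : Kˣ} (hb : Transcendental F (b : K))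
    (h : (a : K) - (a : K)⁻¹ + algebraMap F K k * ((b : K) - (b : K)⁻¹) = 0)
    (hK : IntermediateField.adjoin F {(b : K), (a : K)} = ⊤)
    (hy : (y : K) * (1 - b) = 1 + b) (hX : (X : K) * (a + 1) = a - 1) :
    ∃ R : K2Q K →ₗ[ℚ] ℝ, (∃ γ : K →+* LoopRing, ∀ u v : Kˣ,
      R (sym u v) = regInt (γ (u : K) : ℝ → ℂ) (γ (v : K) : ℝ → ℂ)) ∧
      R (sym a y) = Rinf ρ kr ∧ R (sym X b) = Rzero ρ kr := by
  have hkr : kr ≠ 0 := by
    rintro rfl
    rw [ofReal_zero] at hk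
    exact hk0 ((algebraMap F ℂ).injective (by rw [hk, map_zero]))
  have hξ : YY ρ ∈ LoopRing := ⟨YY_contDiff ρ, YY_per ρ⟩
  have hη : xx ρ kr ∈ LoopRing := ⟨xx_contDiff hP, xx_per⟩
  obtain ⟨γ, hγb, hγa⟩ := exists_homF hk0 hk1 hb a.ne_zero h hK hξ hη
    (fun t => transc_YY hρ hP.pos t) (xx_ne hP) (fun t => by
      rw [hk]
      exact curve_eq hP t)
  obtain ⟨R, hR⟩ := exists_reg γ
  have hlt : ∀ t, ‖YY ρ t‖ < 1 := fun t => by
    rw [norm_YY hP.pos]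
    exact hP.lt
  have hγy : (γ (y : K) : ℝ → ℂ) = yy ρ := by
    refine val_eq γ hy (g := fun t => 1 - YY ρ t) (h := fun t => 1 + YY ρ t) ?_ ?_
      (fun t => one_sub_ne (hlt t)) fun t => rfl
    · rw [map_sub, map_one, AddSubgroupClass.coe_sub, Subring.coe_one, hγb]
      rfl
    · rw [map_add, map_one, Subring.coe_add, Subring.coe_one, hγb]
      rfl
  have hγX : (γ (X : K) : ℝ → ℂ) = XX ρ kr := by
    refine val_eq γ hX (g := fun t => xx ρ kr t + 1) (h := fun t => xx ρ kr t - 1) ?_ ?_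
      (fun t => xx_add_one_ne hP hkr t) fun t => rfl
    · rw [map_add, map_one, Subring.coe_add, Subring.coe_one, hγa]
      rfl
    · rw [map_sub, map_one, AddSubgroupClass.coe_sub, Subring.coe_one, hγa]
      rfl
  refine ⟨R, ⟨γ, hR⟩, ?_, ?_⟩
  · rw [hR, hγa, hγy, regInt_xy hP]
  · rw [hR, hγX, hγb, regInt_XY hP hkr]

end core

section par

lemma exists_eps {m : ℝ} (hm : |m| < 1) : ∃ ε : ℝ, 0 < ε ∧ ∀ ρ : ℝ, 1 - ε < ρ → ρ < 1 →
    |m| * (ρ + ρ⁻¹) < 2 := by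
  have hc : ContinuousAt (fun ρ : ℝ => |m| * (ρ + ρ⁻¹)) 1 :=
    (continuousAt_id.add (continuousAt_id.inv₀ one_ne_zero)).const_mul _
  have h1 : (fun ρ : ℝ => |m| * (ρ + ρ⁻¹)) 1 < 2 := by
    simp only [inv_one]
    linarith
  have h2 := hc.eventually (gt_mem_nhds h1)
  obtain ⟨ε, hε, h3⟩ := Metric.eventually_nhds_iff.1 h2
  refine ⟨ε, hε, fun ρ h4 h5 => h3 ?_⟩
  rw [Real.dist_eq, abs_lt]
  constructor <;> linarith

/-- a common transcendental radius -/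
lemma exists_par {k₁ k₂ : ℝ} (h1 : |k₁| < 1) (h2 : |k₂| < 1) :
    ∃ ρ, Transcendental ℚ ρ ∧ Par ρ k₁ ∧ Par ρ k₂ := by
  obtain ⟨ε₁, he1, hk1⟩ := exists_eps h1
  obtain ⟨ε₂, he2, hk2⟩ := exists_eps h2
  have hlt : max 0 (max (1 - ε₁) (1 - ε₂)) < 1 := by
    refine max_lt one_pos (max_lt ?_ ?_) <;> linarith
  obtain ⟨ρ, hρ1, hρ2, hρ⟩ := exists_transcendental hlt
  have h0 : 0 < ρ := lt_of_le_of_lt (le_max_left _ _) hρ1
  have h3 : max (1 - ε₁) (1 - ε₂) < ρ := lt_of_le_of_lt (le_max_right _ _) hρ1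
  have h4 : 1 - ε₁ < ρ := lt_of_le_of_lt (le_max_left _ _) h3
  have h5 : 1 - ε₂ < ρ := lt_of_le_of_lt (le_max_right _ _) h3
  exact ⟨ρ, hρ, ⟨h0, hρ2, hk1 ρ h4 hρ2⟩, ⟨h0, hρ2, hk2 ρ h5 hρ2⟩⟩

end par

end Pool.Agent.Helper12.RQ
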