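import Mathlib
import Pool.Agent.Helper12.RQ.Place

/-!
The main theorem: curves `(x - 1/x) (y - 1/y) = u` over number fields with two real places.
-/

namespace Pool.Agent.Helper12.RQ

open Complex Pool.Agent.Helper11

/-- the data on the curve -/
structure Data (F K : Type*) [Field F] [Field K] [Algebra F K] (k : F) (x y X Y : Kˣ) : Prop where
  hX : (X : K) * (x + 1) = x - 1
  hY : (Y : K) * (y + 1) = y - 1
  transc : Transcendental F (x : K)
  top : IntermediateField.adjoin F {(x : K), (y : K)} = ⊤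
  eq : (x : K) - (x : K)⁻¹ + algebraMap F K k * ((Y : K) - (Y : K)⁻¹) = 0

namespace Data

variable {F K : Type*} [Field F] [Field K] [Algebra F K] {k : F} {x y X Y : Kˣ}
  (D : Data F K k x y X Y)

include D

lemma y_eq : (y : K) * (1 - Y) = 1 + Y := by
  linear_combination -D.hY

lemma one_sub_ne (h2 : (2 : K) ≠ 0) : (1 : K) - Y ≠ 0 := by
  intro h0
  have h1 := D.y_eq
  rw [h0, mul_zero] at h1
  apply h2
  linear_combination h0 - h1

lemma mem_adjoin (h2 : (2 : K) ≠ 0) :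
    IntermediateField.adjoin F {(x : K), (Y : K)} = ⊤ := by
  rw [eq_top_iff, ← D.top, IntermediateField.adjoin_le_iff]
  have hY : (Y : K) ∈ IntermediateField.adjoin F {(x : K), (Y : K)} :=
    IntermediateField.subset_adjoin F _ (by simp)
  rintro z (rfl | hz)
  · exact IntermediateField.subset_adjoin F _ (by simp)
  · rw [Set.mem_singleton_iff] at hz
    subst hz
    have h3 : (y : K) = (1 + Y) / (1 - Y) := by
      rw [eq_div_iff (D.one_sub_ne h2)]
      exact D.y_eq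
    rw [h3]
    exact div_mem (add_mem (one_mem _) hY) (sub_mem (one_mem _) hY)

end Data

section places

variable {F : Type*} [Field F] [Algebra ℚ F] [Algebra.IsAlgebraic ℚ F]
  {K : Type*} [Field K] [Algebra F K] {k : F} {x y X Y : Kˣ}

/-- `R` is a regulator along a loop -/
def IsLoopReg (R : K2Q K →ₗ[ℚ] ℝ) : Prop :=
  ∃ γ : K →+* LoopRing, ∀ u v : Kˣ,
    R (sym u v) = regInt (γ (u : K) : ℝ → ℂ) (γ (v : K) : ℝ → ℂ)

theorem place_lt (D : Data F K k x y X Y) (σ : F →+* ℝ) {ρ : ℝ} (hP : Par ρ (σ k))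
    (hρ : Transcendental ℚ ρ) (hk0 : k ≠ 0) (hk1 : k ^ 2 ≠ 1) (h2 : (2 : K) ≠ 0) :
    ∃ R : K2Q K →ₗ[ℚ] ℝ, IsLoopReg R ∧ R (sym x y) = Rinf ρ (σ k) ∧
      R (sym X Y) = Rzero ρ (σ k) := by
  letI : Algebra F ℂ := (Complex.ofRealHom.comp σ).toAlgebra
  have hk : algebraMap F ℂ k = ((σ k : ℝ) : ℂ) := rfl
  have hb : Transcendental F (Y : K) := transc_of_curve h2 D.transc D.eq
  have htop : IntermediateField.adjoin F {(Y : K), (x : K)} = ⊤ := by
    rw [Set.pair_comm]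
    exact D.mem_adjoin h2
  exact core hP hρ hk hk0 hk1 hb D.eq htop D.y_eq D.hX

theorem place_gt (D : Data F K k x y X Y) (σ : F →+* ℝ) {ρ : ℝ} (hP : Par ρ (σ k)⁻¹)
    (hρ : Transcendental ℚ ρ) (hk0 : k ≠ 0) (hk1 : k ^ 2 ≠ 1) (h2 : (2 : K) ≠ 0) :
    ∃ R : K2Q K →ₗ[ℚ] ℝ, IsLoopReg R ∧ R (sym x y) = Rzero ρ (σ k)⁻¹ ∧
      R (sym X Y) = Rinf ρ (σ k)⁻¹ := by
  letI : Algebra F ℂ := (Complex.ofRealHom.comp σ).toAlgebra
  have hk : algebraMap F ℂ k⁻¹ = (((σ k)⁻¹ : ℝ) : ℂ) := by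
    rw [map_inv₀, ofReal_inv]
    rfl
  have hk0' : k⁻¹ ≠ 0 := inv_ne_zero hk0
  have hk1' : k⁻¹ ^ 2 ≠ 1 := by
    intro h
    apply hk1
    rw [inv_pow] at h
    exact inv_eq_one.1 h
  have hkK : algebraMap F K k ≠ 0 := by
    rw [Ne, map_eq_zero]
    exact hk0
  have heq : (Y : K) - (Y : K)⁻¹ + algebraMap F K k⁻¹ * ((x : K) - (x : K)⁻¹) = 0 := by
    have h1 := D.eq
    rw [map_inv₀]
    apply mul_left_cancel₀ hkK
    rw [mul_add, mul_zero, ← mul_assoc, mul_inv_cancel₀ hkK, one_mul]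
    linear_combination h1
  have hX' : ((-X⁻¹ : Kˣ) : K) * (1 - x) = 1 + x := by
    have h3 := D.hX
    have h4 := X.ne_zero
    push_cast
    field_simp
    linear_combination -h3
  have hy' : ((-y⁻¹ : Kˣ) : K) * (Y + 1) = Y - 1 := by
    have h3 := D.y_eq
    have h4 := y.ne_zero
    push_cast
    field_simp
    linear_combination h3
  obtain ⟨R, h3, h4, h5⟩ := core hP hρ hk hk0' hk1' D.transc heq (D.mem_adjoin h2) hX' hy'
  refine ⟨R, h3, ?_, ?_⟩
  · rw [← h5]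
    congr 1
    have e : (-y⁻¹ : Kˣ) = y⁻¹ * -1 := by simp
    rw [e, sym_mul_left, sym_antisymm (-1) x, sym_neg_one_right, neg_zero, add_zero,
      sym_inv_left, sym_antisymm y x, neg_neg]
  · rw [← h4]
    congr 1
    have e : (-X⁻¹ : Kˣ) = X⁻¹ * -1 := by simp
    rw [e, sym_mul_right, sym_neg_one_right, add_zero, sym_inv_right, sym_antisymm Y X, neg_neg]

theorem two_places (D : Data F K k x y X Y) (σ τ : F →+* ℝ) (h : σ k ≠ τ k)
    (hk0 : k ≠ 0) (hk1 : k ^ 2 ≠ 1) (h2 : (2 : K) ≠ 0) :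
    ∃ R : Fin 2 → (K2Q K →ₗ[ℚ] ℝ), (∀ i, IsLoopReg (R i)) ∧
      R 0 (sym x y) * R 1 (sym X Y) ≠ R 0 (sym X Y) * R 1 (sym x y) := by
  have hσ0 : σ k ≠ 0 := by rwa [Ne, map_eq_zero]
  have hτ0 : τ k ≠ 0 := by rwa [Ne, map_eq_zero]
  have hsq : ∀ r : F →+* ℝ, |r k| ≠ 1 := by
    intro r hr
    apply hk1
    apply r.injective
    rw [map_pow, map_one, ← sq_abs, hr, one_pow]
  have hinv : ∀ {z : ℝ}, 1 < |z| → |z⁻¹| < 1 := by
    intro z hz
    rw [abs_inv]
    exact inv_lt_one_of_one_lt₀ hz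
  rcases lt_or_gt_of_ne (hsq σ) with h3 | h3 <;> rcases lt_or_gt_of_ne (hsq τ) with h4 | h4
  · obtain ⟨ρ, hρ, P₁, P₂⟩ := exists_par h3 h4
    obtain ⟨R₁, a1, a2, a3⟩ := place_lt D σ P₁ hρ hk0 hk1 h2
    obtain ⟨R₂, b1, b2, b3⟩ := place_lt D τ P₂ hρ hk0 hk1 h2
    refine ⟨![R₁, R₂], fun i => ?_, ?_⟩
    · fin_cases i
      · exact a1
      · exact b1
    · simp only [Matrix.cons_val_zero, Matrix.cons_val_one, a2, a3, b2, b3]
      intro h5
      exact det_ne_all P₁ P₂ hσ0 hτ0 (by linarith) (by linarith) h (by linear_combination h5)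
  · obtain ⟨ρ, hρ, P₁, P₂⟩ := exists_par h3 (hinv h4)
    obtain ⟨R₁, a1, a2, a3⟩ := place_lt D σ P₁ hρ hk0 hk1 h2
    obtain ⟨R₂, b1, b2, b3⟩ := place_gt D τ P₂ hρ hk0 hk1 h2
    refine ⟨![R₁, R₂], fun i => ?_, ?_⟩
    · fin_cases i
      · exact a1
      · exact b1
    · simp only [Matrix.cons_val_zero, Matrix.cons_val_one, a2, a3, b2, b3]
      intro h5
      exact det_ne' P₁ P₂ hσ0 (inv_ne_zero hτ0) h3 (hinv h4) (by linear_combination h5)
  · obtain ⟨ρ, hρ, P₁, P₂⟩ := exists_par (hinv h3) h4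
    obtain ⟨R₁, a1, a2, a3⟩ := place_gt D σ P₁ hρ hk0 hk1 h2
    obtain ⟨R₂, b1, b2, b3⟩ := place_lt D τ P₂ hρ hk0 hk1 h2
    refine ⟨![R₁, R₂], fun i => ?_, ?_⟩
    · fin_cases i
      · exact a1
      · exact b1
    · simp only [Matrix.cons_val_zero, Matrix.cons_val_one, a2, a3, b2, b3]
      intro h5
      exact det_ne' P₁ P₂ (inv_ne_zero hσ0) hτ0 (hinv h3) h4 (by linear_combination -h5)
  · obtain ⟨ρ, hρ, P₁, P₂⟩ := exists_par (hinv h3) (hinv h4)
    obtain ⟨R₁, a1, a2, a3⟩ := place_gt D σ P₁ hρ hk0 hk1 h2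
    obtain ⟨R₂, b1, b2, b3⟩ := place_gt D τ P₂ hρ hk0 hk1 h2
    refine ⟨![R₁, R₂], fun i => ?_, ?_⟩
    · fin_cases i
      · exact a1
      · exact b1
    · simp only [Matrix.cons_val_zero, Matrix.cons_val_one, a2, a3, b2, b3]
      intro h5
      have l1 := hinv h3
      have l2 := hinv h4
      exact det_ne_all P₁ P₂ (inv_ne_zero hσ0) (inv_ne_zero hτ0) (by linarith) (by linarith)
        (fun h6 => h (inv_injective h6)) (by linear_combination -h5)

end places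

open NumberField in
/-- The main theorem. -/
theorem main (F : Type) [Field F] [NumberField F] (u : 𝓞 F) (hu : u ∣ 16) (σ τ : F →+* ℝ)
    (hστ : σ u ≠ τ u) (K : Type) [Field K] [Algebra F K] (x y : K)
    (hK : IntermediateField.adjoin F {x, y} = ⊤) (hx : Transcendental F x)
    (h : (x - x⁻¹) * (y - y⁻¹) = algebraMap F K u) :
    ∃ a b X Y : Kˣ, (a : K) = x ∧ (b : K) = y ∧ (X : K) = (x - 1) / (x + 1) ∧
      (Y : K) = (y - 1) / (y + 1) ∧ sym a b ∈ integralPart K ∧ sym X Y ∈ integralPart K ∧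
      ∃ R : Fin 2 → (K2Q K →ₗ[ℚ] ℝ), (∀ i, IsLoopReg (R i)) ∧
        R 0 (sym a b) * R 1 (sym X Y) ≠ R 0 (sym X Y) * R 1 (sym a b) := by
  have hchar : CharZero K := charZero_of_injective_algebraMap (algebraMap F K).injective
  have h2 : (2 : K) ≠ 0 := two_ne_zero
  obtain ⟨v, huv⟩ := hu
  have huv' : (u : F) * (v : F) = 16 := by
    have := congrArg (algebraMap (𝓞 F) F) huv
    rw [map_mul] at this
    exact this.symm.trans (map_ofNat (algebraMap (𝓞 F) F) 16)
  have hu0 : (u : F) ≠ 0 := by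
    intro h0
    rw [h0, zero_mul] at huv'
    norm_num at huv'
  have huK : algebraMap F K u ≠ 0 := by
    rwa [Ne, map_eq_zero]
  have hw : (x - x⁻¹) * (y - y⁻¹) ≠ 0 := by rwa [h]
  have hx1 := left_ne_zero_of_mul hw
  have hy1 := right_ne_zero_of_mul hw
  have aux : ∀ z : K, z - z⁻¹ ≠ 0 → z ≠ 0 ∧ z - 1 ≠ 0 ∧ z + 1 ≠ 0 := by
    intro z hz
    refine ⟨?_, ?_, ?_⟩
    · rintro rfl
      simp at hz
    · intro h0
      apply hz
      rw [sub_eq_zero.1 h0]
      simp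
    · intro h0
      apply hz
      rw [eq_neg_of_add_eq_zero_left h0, inv_neg, inv_one]
      ring
  obtain ⟨hx0, hxm, hxp⟩ := aux x hx1
  obtain ⟨hy0, hym, hyp⟩ := aux y hy1
  set k : F := u / 4 with hk
  have hk0 : k ≠ 0 := div_ne_zero hu0 (by norm_num)
  have hk4 : ∀ r : F →+* ℝ, r u = 4 * r k := by
    intro r
    have : (u : F) = 4 * k := by
      rw [hk]
      ring
    rw [this, map_mul, map_ofNat]
  have hστ' : σ k ≠ τ k := by
    intro h0
    apply hστ
    rw [hk4, hk4, h0]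
  have hk1 : k ^ 2 ≠ 1 := by
    intro h0
    apply hστ'
    rcases sq_eq_one_iff.1 h0 with h1 | h1
    · rw [h1, map_one, map_one]
    · rw [h1, map_neg, map_neg, map_one, map_one]
  set a : Kˣ := Units.mk0 x hx0 with ha
  set b : Kˣ := Units.mk0 y hy0 with hb
  set X : Kˣ := Units.mk0 ((x - 1) / (x + 1)) (div_ne_zero hxm hxp) with hX
  set Y : Kˣ := Units.mk0 ((y - 1) / (y + 1)) (div_ne_zero hym hyp) with hY
  have eX : (X : K) = (x - 1) / (x + 1) := rfl
  have eY : (Y : K) = (y - 1) / (y + 1) := rfl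
  have e1 : ∀ z : K, z ≠ 0 → z - 1 ≠ 0 → z + 1 ≠ 0 →
      ((z - 1) / (z + 1) - ((z - 1) / (z + 1))⁻¹) * (z - z⁻¹) = -4 := by
    intro z h1 h2 h3
    field_simp
    ring
  have eX1 := e1 x hx0 hxm hxp
  have eY1 := e1 y hy0 hym hyp
  have D : Data F K k a b X Y := by
    refine ⟨?_, ?_, hx, hK, ?_⟩
    · change (x - 1) / (x + 1) * (x + 1) = x - 1
      field_simp
    · change (y - 1) / (y + 1) * (y + 1) = y - 1
      field_simp
    · change x - x⁻¹ + algebraMap F K k * ((y - 1) / (y + 1) - ((y - 1) / (y + 1))⁻¹) = 0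
      have h4 : algebraMap F K u = 4 * algebraMap F K k := by
        have : (u : F) = 4 * k := by
          rw [hk]
          ring
        rw [this, map_mul]
        congr 1
        exact map_ofNat (algebraMap F K) 4
      apply mul_right_cancel₀ hy1
      rw [h4] at h
      linear_combination h + algebraMap F K k * eY1
  have huint : IsIntegral ℤ (algebraMap F K u) :=
    (RingOfIntegers.isIntegral_coe u).algebraMap
  have hvint : IsIntegral ℤ (algebraMap F K v) :=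
    (RingOfIntegers.isIntegral_coe v).algebraMap
  refine ⟨a, b, X, Y, rfl, rfl, rfl, rfl, ?_, ?_, two_places D σ τ hστ' hk0 hk1 h2⟩
  · exact mem_integralPart_of h huint
  · refine mem_integralPart_of (w := algebraMap F K v) ?_ hvint
    rw [eX, eY]
    have h5 : algebraMap F K u * algebraMap F K v = 16 := by
      rw [← map_mul, huv']
      exact map_ofNat (algebraMap F K) 16
    apply mul_right_cancel₀ huK
    rw [← h]
    have h6 : algebraMap F K v * ((x - x⁻¹) * (y - y⁻¹)) = 16 := by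
      rw [h, mul_comm]
      exact h5
    rw [h6]
    linear_combination ((y - 1) / (y + 1) - ((y - 1) / (y + 1))⁻¹) * (y - y⁻¹) * eX1 - 4 * eY1

end Pool.Agent.Helper12.RQ
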